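import Pool.Agent.Q207.GB.Star

/-!
# Countable closed families of classes of hereditarily countable sets
-/

set_option autoImplicit false

namespace Q207.GB

open ZFSet (pair)
open Pool.Agent.W868 (Fml Sat Dfn DfnF IsBase TOver tOver_inr over_iUnion countable_fml nat)
open Q207.CF (IsName)
open Q207.CM (HC hc_trans hc_of hc_countable hc_pair hc_sUnion hc_omega base_hc)

/-! ### The set of the hereditarily countable sets -/

theorem rank_hc {x : ZFSet.{0}} : x ∈ HC → x.rank < Ordinal.omega 1 := by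
  induction x using ZFSet.inductionOn with
  | _ x ih =>
  intro hx
  by_cases hne : {y | y ∈ x}.Nonempty
  · obtain ⟨f, hf⟩ := (hc_countable hx).exists_eq_range hne
    have hfx : ∀ n, f n ∈ x := fun n => by
      have : f n ∈ {y | y ∈ x} := by
        rw [hf]
        exact ⟨n, rfl⟩
      exact this
    have h1 : (⨆ n, Order.succ (f n).rank) < Ordinal.omega 1 := by
      refine Ordinal.iSup_lt_omega_one fun n => ?_
      exact (Cardinal.isSuccLimit_omega 1).succ_lt (ih _ (hfx n) (hc_trans x hx _ (hfx n)))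
    refine lt_of_le_of_lt ?_ h1
    rw [ZFSet.rank_le_iff]
    intro y hy
    have h2 : y ∈ {y | y ∈ x} := hy
    rw [hf] at h2
    obtain ⟨n, rfl⟩ := h2
    exact lt_of_lt_of_le (Order.lt_succ _) (Ordinal.le_iSup (fun n => Order.succ (f n).rank) n)
  · have h1 : x = ∅ := by
      ext y
      simp only [ZFSet.notMem_empty, iff_false]
      exact fun hy => hne ⟨y, hy⟩
    rw [h1, ZFSet.rank_empty]
    exact Ordinal.omega_pos 1

/-- The set of the hereditarily countable sets. -/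
noncomputable def Hs : ZFSet.{0} :=
  ZFSet.sep (fun x => x ∈ HC) (ZFSet.vonNeumann (Ordinal.omega 1))

theorem mem_Hs {x : ZFSet.{0}} : x ∈ Hs ↔ x ∈ HC := by
  rw [Hs, ZFSet.mem_sep, ZFSet.mem_vonNeumann]
  exact ⟨fun h => h.2, fun h => ⟨rank_hc h, h⟩⟩

/-! ### Closed families -/

/-- The class of the elements of `HC` that satisfy the formula. -/
noncomputable def cp (φ : Fml ZFSet.{0} 1) : ZFSet.{0} :=
  ZFSet.sep (fun z => Sat HC id φ ![z]) Hs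

/-- The class of the tuples `(p, σ)` of a condition and names such that `p` forces `φ(σ)`. -/
noncomputable def fc (P L : ZFSet.{0}) {n : ℕ} (φ : Fml ZFSet.{0} n) : ZFSet.{0} :=
  ZFSet.sep (fun x => ∃ p ∈ P, ∃ σ : Fin n → ZFSet.{0},
    (∀ i, σ i ∈ HC ∧ IsName {p | p ∈ P} (σ i)) ∧ x = pair p (tp σ) ∧ SF P L id φ σ p) Hs

/-- A countable family of classes with many closure properties. -/
structure Cl (P L : ZFSet.{0}) (K : Set ZFSet.{0}) : Prop where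
  cnt : K.Countable
  sub : ∀ X ∈ K, ∀ x ∈ X, x ∈ HC
  comp : ∀ φ : Fml ZFSet.{0} 1, φ.Over K → cp φ ∈ K
  pick : ∀ X ∈ K, (∃ x, x ∈ X) → ∃ x ∈ X, x ∈ K
  elt : ∀ x ∈ K, x ∈ HC → ∀ y ∈ x, y ∈ K
  force : ∀ (n : ℕ) (φ : Fml ZFSet.{0} n), φ.Over K → fc P L φ ∈ K

theorem exists_cl (P L : ZFSet.{0}) {K₀ : Set ZFSet.{0}} (h0 : K₀.Countable)
    (h0' : ∀ X ∈ K₀, ∀ x ∈ X, x ∈ HC) : ∃ K, Cl P L K ∧ K₀ ⊆ K := by
  classical
  have hp : ∀ X : ZFSet.{0}, ∃ x, (∃ x, x ∈ X) → x ∈ X := by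
    intro X
    by_cases h : ∃ x, x ∈ X
    · obtain ⟨x, hx⟩ := h
      exact ⟨x, fun _ => hx⟩
    · exact ⟨∅, fun h' => absurd h' h⟩
  choose pk hpk using hp
  let st : Set ZFSet.{0} → Set ZFSet.{0} := fun X =>
    X ∪ (cp '' {φ | φ.Over X} ∪ (pk '' {Y | Y ∈ X ∧ ∃ x, x ∈ Y} ∪
      ({z | ∃ y ∈ {y | y ∈ X ∧ y ∈ HC}, z ∈ y} ∪
        ⋃ n : ℕ, (fun φ : Fml ZFSet.{0} n => fc P L φ) '' {φ | φ.Over X})))
  let X : ℕ → Set ZFSet.{0} := fun n => Nat.rec K₀ (fun _ Y => st Y) n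
  have hXs : ∀ n, X (n + 1) = st (X n) := fun n => rfl
  have hsub : ∀ n, X n ⊆ X (n + 1) := fun n y hy => Or.inl hy
  have hmono : Monotone X := monotone_nat_of_le_succ hsub
  have hHC : ∀ n, ∀ Y ∈ X n, ∀ x ∈ Y, x ∈ HC := by
    intro n
    induction n with
    | zero => exact h0'
    | succ n ih =>
      rintro Y (hY | ⟨φ, -, rfl⟩ | ⟨Z, ⟨hZ, hZ'⟩, rfl⟩ | ⟨y, ⟨hy, hy'⟩, hz⟩ | hY) x hx
      · exact ih Y hY x hx
      · exact mem_Hs.1 (ZFSet.mem_sep.1 hx).1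
      · exact hc_trans _ (ih Z hZ _ (hpk Z hZ')) _ hx
      · exact hc_trans _ (hc_trans _ hy' _ hz) _ hx
      · obtain ⟨k, φ, -, rfl⟩ := Set.mem_iUnion.1 hY
        exact mem_Hs.1 (ZFSet.mem_sep.1 hx).1
  have hcnt : ∀ n, (X n).Countable := by
    intro n
    induction n with
    | zero => exact h0
    | succ n ih =>
      rw [hXs]
      refine ih.union (((countable_fml ih 1).image _).union
        (((ih.mono fun Y hY => hY.1).image _).union (?_ : Set.Countable _)))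
      refine Set.Countable.union ?_ (Set.countable_iUnion fun k => (countable_fml ih k).image _)
      have h1 : {y | y ∈ X n ∧ y ∈ HC}.Countable := ih.mono fun Y hY => hY.1
      refine (h1.biUnion fun y hy => hc_countable hy.2).mono ?_
      rintro z ⟨y, hy, hz⟩
      exact Set.mem_biUnion hy hz
  refine ⟨⋃ n, X n, ⟨Set.countable_iUnion hcnt, ?_, ?_, ?_, ?_, ?_⟩, ?_⟩
  · intro Y hY
    obtain ⟨n, hn⟩ := Set.mem_iUnion.1 hY
    exact hHC n Y hn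
  · intro φ hφ
    obtain ⟨n, hn⟩ := over_iUnion hmono φ hφ
    exact Set.mem_iUnion.2 ⟨n + 1, Or.inr (Or.inl ⟨φ, hn, rfl⟩)⟩
  · intro Y hY h
    obtain ⟨n, hn⟩ := Set.mem_iUnion.1 hY
    exact ⟨pk Y, hpk Y h, Set.mem_iUnion.2 ⟨n + 1, Or.inr (Or.inr (Or.inl ⟨Y, ⟨hn, h⟩, rfl⟩))⟩⟩
  · intro x hx hx' y hy
    obtain ⟨n, hn⟩ := Set.mem_iUnion.1 hx
    exact Set.mem_iUnion.2 ⟨n + 1, Or.inr (Or.inr (Or.inr (Or.inl ⟨x, ⟨hn, hx'⟩, hy⟩)))⟩
  · intro k φ hφ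
    obtain ⟨n, hn⟩ := over_iUnion hmono φ hφ
    exact Set.mem_iUnion.2 ⟨n + 1, Or.inr (Or.inr (Or.inr (Or.inr (Set.mem_iUnion.2
      ⟨k, φ, hn, rfl⟩))))⟩
  · exact fun Y hY => Set.mem_iUnion.2 ⟨0, hY⟩

/-- The sets of the model. -/
def Ms (K : Set ZFSet.{0}) : Set ZFSet.{0} := {x | x ∈ K ∧ x ∈ HC}

/-- The class of the model that is given by a class of elements of `HC`. -/
noncomputable def cut (K : Set ZFSet.{0}) (X : ZFSet.{0}) : ZFSet.{0} :=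
  ZFSet.sep (fun x => x ∈ K ∧ x ∈ HC) X

/-- The classes of the model. -/
def Cs (K : Set ZFSet.{0}) : Set ZFSet.{0} := {Y | ∃ X ∈ K, Y = cut K X}

theorem mem_cut {K : Set ZFSet.{0}} {X x : ZFSet.{0}} : x ∈ cut K X ↔ x ∈ X ∧ x ∈ Ms K :=
  ZFSet.mem_sep

section

variable {P L : ZFSet.{0}} {K : Set ZFSet.{0}} (hK : Cl P L K)

include hK

theorem Cl.wit {R : ZFSet.{0} → Prop} (hR : Dfn K HC fun w : Fin 1 → ZFSet.{0} => R (w 0))
    (h : ∃ a ∈ HC, R a) : ∃ a ∈ Ms K, R a := by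
  obtain ⟨φ, hφ, hφ'⟩ := hR
  have h1 : ∀ a ∈ HC, (Sat HC id φ ![a] ↔ R a) := fun a ha =>
    hφ' ![a] (by intro i; fin_cases i; exact ha)
  obtain ⟨a, ha, h2⟩ := h
  obtain ⟨b, hb, hbK⟩ := hK.pick _ (hK.comp φ hφ)
    ⟨a, ZFSet.mem_sep.2 ⟨mem_Hs.2 ha, (h1 a ha).2 h2⟩⟩
  obtain ⟨hb1, hb2⟩ := ZFSet.mem_sep.1 hb
  rw [mem_Hs] at hb1
  exact ⟨b, ⟨hbK, hb1⟩, (h1 b hb1).1 hb2⟩

theorem Cl.cls {R : ZFSet.{0} → Prop} (hR : Dfn K HC fun w : Fin 1 → ZFSet.{0} => R (w 0)) :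
    ∃ X ∈ K, ∀ z, z ∈ X ↔ z ∈ HC ∧ R z := by
  obtain ⟨φ, hφ, hφ'⟩ := hR
  refine ⟨_, hK.comp φ hφ, fun z => ?_⟩
  rw [cp, ZFSet.mem_sep, mem_Hs]
  exact and_congr_right fun hz => hφ' ![z] (by intro i; fin_cases i; exact hz)

/-- Membership in a class is definable. -/
theorem dfn_cls {X : ZFSet.{0}} (hX : X ∈ K) {n : ℕ} {F : (Fin n → ZFSet.{0}) → ZFSet.{0}}
    (hF : DfnF K HC F) : Dfn K HC fun v => F v ∈ X := by
  refine Dfn.comp1 (Q := fun a => a ∈ X) ?_ hF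
  exact ⟨.mem (Sum.inl 0) (Sum.inr X), ⟨TOver.inl _, tOver_inr.2 hX⟩, fun v _ => Iff.rfl⟩

theorem dfn_const {n : ℕ} {a : ZFSet.{0}} (ha : a ∈ Ms K) :
    DfnF K HC fun _ : Fin n → ZFSet.{0} => a := DfnF.const' ha.2 ha.1

theorem Cl.eq_mem {a : ZFSet.{0}} (ha : a ∈ HC)
    (hR : Dfn K HC fun w : Fin 1 → ZFSet.{0} => w 0 = a) : a ∈ Ms K := by
  obtain ⟨b, hb, rfl⟩ := hK.wit (R := fun b => b = a) hR ⟨a, ha, rfl⟩
  exact hb

theorem Cl.trans : ∀ x ∈ Ms K, ∀ y ∈ x, y ∈ Ms K := fun x hx y hy =>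
  ⟨hK.elt x hx.1 hx.2 y hy, hc_trans x hx.2 y hy⟩

theorem Cl.pair_mem {x y : ZFSet.{0}} (hx : x ∈ Ms K) (hy : y ∈ Ms K) : pair x y ∈ Ms K := by
  have h1 : DfnF K HC fun _ : Fin 0 → ZFSet.{0} => pair x y :=
    base_hc.pair' (dfn_const hK hx) (dfn_const hK hy)
  exact hK.eq_mem (h1.1 Fin.elim0 fun i => i.elim0) (Dfn.eq (DfnF.proj 0)
    (base_hc.pair' (dfn_const hK hx) (dfn_const hK hy)))

theorem Cl.of_pair {x y : ZFSet.{0}} (h : pair x y ∈ Ms K) : x ∈ Ms K ∧ y ∈ Ms K := by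
  have h1 : ({x, y} : ZFSet.{0}) ∈ Ms K := hK.trans _ h _ (by simp [pair])
  exact ⟨hK.trans _ h1 _ (by simp), hK.trans _ h1 _ (by simp)⟩

theorem cut_set {x : ZFSet.{0}} (hx : x ∈ Ms K) : cut K x = x := by
  ext z
  rw [mem_cut]
  exact ⟨fun h => h.1, fun h => ⟨h, hK.trans x hx z h⟩⟩

theorem cut_eq {X Y : ZFSet.{0}} (hX : X ∈ K) (hY : Y ∈ K) : cut K X = cut K Y ↔ X = Y := by
  refine ⟨fun h => ?_, fun h => h ▸ rfl⟩
  by_contra h1
  have h2 : ∃ z ∈ HC, ¬ (z ∈ X ↔ z ∈ Y) := by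
    by_contra h3
    push Not at h3
    refine h1 (ZFSet.ext fun z => ?_)
    constructor
    · intro hz
      exact (h3 z (hK.sub X hX z hz)).1 hz
    · intro hz
      exact (h3 z (hK.sub Y hY z hz)).2 hz
  obtain ⟨z, hz, h3⟩ := hK.wit (R := fun z => ¬ (z ∈ X ↔ z ∈ Y))
    (((dfn_cls hK hX (DfnF.proj 0)).iff (dfn_cls hK hY (DfnF.proj 0))).not) h2
  refine h3 ?_
  have h4 : z ∈ cut K X ↔ z ∈ cut K Y := by rw [h]
  rw [mem_cut, mem_cut] at h4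
  exact ⟨fun h5 => (h4.1 ⟨h5, hz⟩).1, fun h5 => (h4.2 ⟨h5, hz⟩).1⟩

theorem cut_mem {X Y : ZFSet.{0}} (hX : X ∈ K) (hY : Y ∈ K) : cut K X ∈ cut K Y ↔ X ∈ Y := by
  constructor
  · intro h
    obtain ⟨h1, h2⟩ := mem_cut.1 h
    have h3 : cut K (cut K X) = cut K X := cut_set hK h2
    have h4 := (cut_eq hK h2.1 hX).1 h3
    rwa [h4] at h1
  · intro h
    have h1 : X ∈ Ms K := ⟨hX, hK.sub Y hY X h⟩
    rw [cut_set hK h1]
    exact mem_cut.2 ⟨h, h1⟩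

/-! ### Elementarity -/

omit hK in
/-- The class in `K` that is given by the class in `Cs K`. -/
theorem exists_star : ∃ s : ZFSet.{0} → ZFSet.{0}, ∀ Y ∈ Cs K, s Y ∈ K ∧ cut K (s Y) = Y := by
  classical
  have h : ∀ Y : ZFSet.{0}, ∃ X, Y ∈ Cs K → X ∈ K ∧ cut K X = Y := by
    intro Y
    by_cases hY : Y ∈ Cs K
    · obtain ⟨X, hX, h⟩ := hY
      exact ⟨X, fun _ => ⟨hX, h.symm⟩⟩
    · exact ⟨∅, fun h => absurd h hY⟩
  choose s hs using h
  exact ⟨s, hs⟩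

theorem term_star {s : ZFSet.{0} → ZFSet.{0}} (hs : ∀ Y ∈ Cs K, s Y ∈ K ∧ cut K (s Y) = Y)
    {n : ℕ} {v : Fin n → ZFSet.{0}} (hv : ∀ i, v i ∈ Ms K) {t : Fin n ⊕ ZFSet.{0}}
    (ht : TOver (Cs K) t) : Sum.elim v id (Sum.map id s t) ∈ K ∧
      Sum.elim v id t = cut K (Sum.elim v id (Sum.map id s t)) := by
  cases t with
  | inl i => exact ⟨(hv i).1, (cut_set hK (hv i)).symm⟩
  | inr Y => exact ⟨(hs Y (ht Y rfl)).1, (hs Y (ht Y rfl)).2.symm⟩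

theorem over_star {s : ZFSet.{0} → ZFSet.{0}} (hs : ∀ Y ∈ Cs K, s Y ∈ K ∧ cut K (s Y) = Y)
    {n : ℕ} {φ : Fml ZFSet.{0} n} (hφ : φ.Over (Cs K)) : (φ.map s).Over K := by
  rw [Pool.Agent.W868.over_map]
  exact hφ.mono fun Y hY => (hs Y hY).1

/-- The relation is definable over `K` if it is given by a formula. -/
theorem dfn_sat {n : ℕ} {φ : Fml ZFSet.{0} n} (hφ : φ.Over K) :
    Dfn K HC fun w : Fin n → ZFSet.{0} => Sat HC id φ w := ⟨φ, hφ, fun _ _ => Iff.rfl⟩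

/-- The relation that is given by the formula, where all variables but the first one are
constants. -/
theorem dfn_sat_cons {n : ℕ} {φ : Fml ZFSet.{0} (n + 1)} (hφ : φ.Over K) {v : Fin n → ZFSet.{0}}
    (hv : ∀ i, v i ∈ Ms K) : Dfn K HC fun w : Fin 1 → ZFSet.{0} =>
      Sat HC id φ (Fin.cons (w 0) v) := by
  let σ : Fin (n + 1) → Fin 1 ⊕ ZFSet.{0} := Fin.cons (Sum.inl 0) fun i => Sum.inr (v i)
  have hσ : ∀ j, TOver K (σ j) := by
    intro j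
    refine Fin.cases ?_ (fun j => ?_) j
    · exact TOver.inl 0
    · exact tOver_inr.2 (hv j).1
  refine ⟨φ.subst σ, Pool.Agent.W868.over_subst _ _ hσ hφ, fun w _ => ?_⟩
  rw [Pool.Agent.W868.sat_subst]
  have h2 : (fun j => Sum.elim w id (σ j)) = (Fin.cons (w 0) v : Fin (n + 1) → ZFSet.{0}) := by
    funext j
    refine Fin.cases ?_ (fun j => ?_) j
    · rfl
    · rfl
  rw [h2]

theorem sat_star {s : ZFSet.{0} → ZFSet.{0}} (hs : ∀ Y ∈ Cs K, s Y ∈ K ∧ cut K (s Y) = Y) :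
    {n : ℕ} → (φ : Fml ZFSet.{0} n) → φ.Over (Cs K) → (v : Fin n → ZFSet.{0}) →
      (∀ i, v i ∈ Ms K) → (Sat (Ms K) id φ v ↔ Sat HC id (φ.map s) v)
  | _, .mem a b, h, v, hv => by
    have h1 := term_star hK hs hv h.1
    have h2 := term_star hK hs hv h.2
    simp only [Sat, Pool.Agent.W868.Fml.map]
    rw [h1.2, h2.2]
    exact cut_mem hK h1.1 h2.1
  | _, .eq a b, h, v, hv => by
    have h1 := term_star hK hs hv h.1
    have h2 := term_star hK hs hv h.2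
    simp only [Sat, Pool.Agent.W868.Fml.map]
    rw [h1.2, h2.2]
    exact cut_eq hK h1.1 h2.1
  | _, .neg φ, h, v, hv => not_congr (sat_star hs φ h v hv)
  | _, .and φ ψ, h, v, hv => and_congr (sat_star hs φ h.1 v hv) (sat_star hs ψ h.2 v hv)
  | n, .ex φ, h, v, hv => by
    have hc : ∀ a ∈ Ms K, ∀ k, (Fin.cons a v : Fin (n + 1) → ZFSet.{0}) k ∈ Ms K := by
      intro a ha k
      refine Fin.cases ?_ (fun k => ?_) k
      · exact ha
      · exact hv k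
    constructor
    · rintro ⟨a, ha, h1⟩
      exact ⟨a, ha.2, (sat_star hs φ h _ (hc a ha)).1 h1⟩
    · intro h1
      have h2 : ∃ a ∈ HC, Sat HC id (φ.map s) (Fin.cons a v) := h1
      obtain ⟨a, ha, h3⟩ := hK.wit (dfn_sat_cons hK (over_star hK hs (φ := φ) h) hv) h2
      exact ⟨a, ha, (sat_star hs φ h _ (hc a ha)).2 h3⟩

theorem gbm (hω : ZFSet.omega ∈ K) : IsGBm (Ms K) (Cs K) := by
  have hB := base_hc
  obtain ⟨s, hs⟩ := exists_star (K := K)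
  refine ⟨hK.trans, fun x hx => ⟨x, hx.1, (cut_set hK hx).symm⟩, ?_, fun x hx y hy => ?_,
    fun x hx => ?_, ⟨hω, hc_omega⟩, fun φ hφ x hx => ?_, fun φ hφ x hx h => ?_, fun φ hφ => ?_⟩
  · rintro Y ⟨X, hX, rfl⟩ x hx
    exact (mem_cut.1 hx).2
  · refine hK.eq_mem (hc_pair hx.2 hy.2) ?_
    exact Dfn.eq (DfnF.proj 0) (hB.upair' (dfn_const hK hx) (dfn_const hK hy))
  · refine hK.eq_mem (hc_sUnion hx.2) ?_
    exact Dfn.eq (DfnF.proj 0) (hB.sUnion' (dfn_const hK hx))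
  · have h1 := over_star hK hs hφ
    have hd : Dfn K HC fun w : Fin 1 → ZFSet.{0} => w 0 ∈ x ∧ Sat HC id (φ.map s) ![w 0] := by
      refine (dfn_cls hK hx.1 (DfnF.proj 0)).and ((dfn_sat hK h1).congr fun w _ => ?_)
      have h2 : w = ![w 0] := by
        funext i
        fin_cases i
        rfl
      rw [← h2]
    obtain ⟨y, hy, h2⟩ := hK.cls (R := fun z => z ∈ x ∧ Sat HC id (φ.map s) ![z]) hd
    have hyH : y ∈ HC :=
      hc_of ((hc_countable hx.2).mono fun z hz => ((h2 z).1 hz).2.1) fun z hz => ((h2 z).1 hz).1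
    refine ⟨y, ⟨hy, hyH⟩, fun z => ?_⟩
    rw [h2]
    constructor
    · rintro ⟨-, hz, h3⟩
      refine ⟨hz, (sat_star hK hs φ hφ ![z] ?_).2 h3⟩
      intro i
      fin_cases i
      exact hK.trans _ hx _ hz
    · rintro ⟨hz, h3⟩
      refine ⟨hc_trans _ hx.2 _ hz, hz, (sat_star hK hs φ hφ ![z] ?_).1 h3⟩
      intro i
      fin_cases i
      exact hK.trans _ hx _ hz
  · have h1 := over_star hK hs hφ
    have h0 : ∀ z ∈ x, ∃ w ∈ HC, Sat HC id (φ.map s) ![z, w] := by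
      intro z hz
      obtain ⟨w, hw, h1⟩ := h z hz
      refine ⟨w, hw.2, (sat_star hK hs φ hφ ![z, w] ?_).1 h1⟩
      intro i
      fin_cases i
      · exact hK.trans _ hx _ hz
      · exact hw
    choose! f hf1 hf2 using h0
    have hxc := hc_countable hx.2
    obtain ⟨Y, hY⟩ : ∃ Y : ZFSet.{0}, ∀ y, y ∈ Y ↔ ∃ z ∈ x, y = f z :=
      ⟨Pool.Agent.W868.im f x, fun y => Pool.Agent.W868.mem_im⟩
    have hYH : Y ∈ HC := by
      refine hc_of ((hxc.image f).mono fun y hy => ?_) fun y hy => ?_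
      · obtain ⟨z, hz, rfl⟩ := (hY y).1 hy
        exact ⟨z, hz, rfl⟩
      · obtain ⟨z, hz, rfl⟩ := (hY y).1 hy
        exact hf1 z hz
    have hR : Dfn K HC fun w : Fin 1 → ZFSet.{0} =>
        ∀ z ∈ x, ∃ y ∈ w 0, Sat HC id (φ.map s) ![z, y] := by
      apply hB.ball (dfn_const hK hx)
      apply hB.bex (DfnF.proj 1)
      have h3 : Dfn K HC fun w : Fin 2 → ZFSet.{0} => Sat HC id (φ.map s) ![w 0, w 1] := by
        refine (dfn_sat hK h1).congr fun w _ => ?_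
        have h2 : w = ![w 0, w 1] := by
          funext i
          fin_cases i <;> rfl
        rw [← h2]
      exact Dfn.comp2 (Q := fun a b => Sat HC id (φ.map s) ![a, b]) h3 (DfnF.proj 1)
        (DfnF.proj 0)
    obtain ⟨y, hy, h3⟩ := hK.wit
      (R := fun Y => ∀ z ∈ x, ∃ y ∈ Y, Sat HC id (φ.map s) ![z, y]) hR
      ⟨Y, hYH, fun z hz => ⟨f z, (hY _).2 ⟨z, hz, rfl⟩, hf2 z hz⟩⟩
    refine ⟨y, hy, fun z hz => ?_⟩
    obtain ⟨w, hw, h2⟩ := h3 z hz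
    refine ⟨w, hw, (sat_star hK hs φ hφ ![z, w] ?_).2 h2⟩
    intro i
    fin_cases i
    · exact hK.trans _ hx _ hz
    · exact hK.trans _ hy _ hw
  · have h1 := over_star hK hs hφ
    refine ⟨cut K (cp (φ.map s)), ⟨_, hK.comp _ h1, rfl⟩, fun z => ?_⟩
    rw [mem_cut, cp, ZFSet.mem_sep, mem_Hs]
    constructor
    · rintro ⟨⟨h2, h3⟩, h4⟩
      refine ⟨h4, (sat_star hK hs φ hφ ![z] ?_).2 h3⟩
      intro i
      fin_cases i
      exact h4
    · rintro ⟨h4, h3⟩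
      refine ⟨⟨h4.2, (sat_star hK hs φ hφ ![z] ?_).1 h3⟩, h4⟩
      intro i
      fin_cases i
      exact h4

theorem countable_Ms : (Ms K).Countable := hK.cnt.mono fun _ h => h.1

theorem countable_Cs : (Cs K).Countable := by
  refine (hK.cnt.image (cut K)).mono ?_
  rintro Y ⟨X, hX, rfl⟩
  exact ⟨X, hX, rfl⟩

end

end Q207.GB
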