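import Pool.Agent.Q207.CF.Defs

/-!
# Class forcing over transitive second order models

Everything takes place inside the type `ZFSet.{0}` of all sets. The sets of a second order model
form a class `M`, its classes form a family `C` of subsets of `M`. Formulas of the language of
set theory (`Fml`) and their truth in `M` (`Sat`) are those of `Pool.Agent.W868.Defs`: all
quantifiers range over `M`, and parameters may be sets or classes. Names (`IsName`), their
evaluation (`val`, see `mem_val`), the generic extension (`Ext`), filters (`IsFilter`) and dense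
sets (`IsDense`) are those of `Pool.Agent.Q207.CF.Defs`.
-/

set_option autoImplicit false

namespace Q207.GB

open ZFSet (pair)
open Pool.Agent.W868 (Fml Sat)
open Q207.CF (IsName val Ext IsFilter IsDense)

/-- `(M, C)` is a transitive model of the second order theory `GB⁻`: `M` is a transitive class of
sets, `C` is a family of subsets of `M` that contains all elements of `M`; the axioms of pairing,
union and infinity hold, as well as the schemes of separation and collection (with class
parameters, quantifiers range over sets) and first order class comprehension. Extensionality and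
foundation, for sets and classes, hold automatically. -/
structure IsGBm (M C : Set ZFSet.{0}) : Prop where
  trans : ∀ x ∈ M, ∀ y ∈ x, y ∈ M
  sub : M ⊆ C
  cls : ∀ X ∈ C, ∀ x ∈ X, x ∈ M
  pairing : ∀ x ∈ M, ∀ y ∈ M, ({x, y} : ZFSet.{0}) ∈ M
  union : ∀ x ∈ M, ZFSet.sUnion x ∈ M
  infinity : ZFSet.omega ∈ M
  separation : ∀ φ : Fml ZFSet.{0} 1, φ.Over C → ∀ x ∈ M, ∃ y ∈ M, ∀ z,
    z ∈ y ↔ z ∈ x ∧ Sat M id φ ![z]
  collection : ∀ φ : Fml ZFSet.{0} 2, φ.Over C → ∀ x ∈ M,
    (∀ z ∈ x, ∃ w ∈ M, Sat M id φ ![z, w]) →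
      ∃ y ∈ M, ∀ z ∈ x, ∃ w ∈ y, Sat M id φ ![z, w]
  comprehension : ∀ φ : Fml ZFSet.{0} 1, φ.Over C → ∃ X ∈ C, ∀ z,
    z ∈ X ↔ z ∈ M ∧ Sat M id φ ![z]

/-- The class `L` of pairs is a partial order on the class `P`, with a largest element. -/
structure IsPO (P L : ZFSet.{0}) : Prop where
  sub : ∀ x ∈ L, ∃ p ∈ P, ∃ q ∈ P, x = pair p q
  refl : ∀ p ∈ P, pair p p ∈ L
  trans : ∀ p q r, pair p q ∈ L → pair q r ∈ L → pair p r ∈ L
  antisymm : ∀ p q, pair p q ∈ L → pair q p ∈ L → p = q
  top : ∃ t ∈ P, ∀ p ∈ P, pair p t ∈ L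

/-- The filter `G` on the class forcing `(P, L)` is generic over the second order model with the
classes `C`: it meets all dense subclasses of `P` in `C`. -/
def IsGen (C : Set ZFSet.{0}) (P L : ZFSet.{0}) (G : Set ZFSet.{0}) : Prop :=
  IsFilter {p | p ∈ P} (fun p q => pair p q ∈ L) G ∧
    ∀ D ∈ C, IsDense {p | p ∈ P} (fun p q => pair p q ∈ L) {p | p ∈ D} → ∃ p ∈ D, p ∈ G

/-- The condition `p` forces the formula `φ` about the class names `Γ` and the names `σ`: for all
generic `G` that contain `p`, the formula holds in `M[G]` about the classes `Γ^G` and the sets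
`σ^G`. -/
def Forces (M C : Set ZFSet.{0}) (P L : ZFSet.{0}) {k n : ℕ} (p : ZFSet.{0}) (φ : Fml (Fin k) n)
    (Γ : Fin k → ZFSet.{0}) (σ : Fin n → ZFSet.{0}) : Prop :=
  ∀ G, IsGen C P L G → p ∈ G →
    Sat (Ext M {p | p ∈ P} G) (fun a => val G (Γ a)) φ fun i => val G (σ i)

/-- The code of the tuple `(v 0, (v 1, ...))`. -/
noncomputable def tp : {n : ℕ} → (Fin n → ZFSet.{0}) → ZFSet.{0}
  | 0, _ => ∅
  | _ + 1, v => pair (v 0) (tp (Fin.tail v))

/-- The class forcing `(P, L)` satisfies the forcing theorem over the second order model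
`(M, C)`: for all formulas `φ` and class names `Γ` in `C`, the class of the tuples
`(p, σ 0, ..., σ (n - 1))` such that `p` forces `φ` about `Γ` and the names `σ i ∈ M` is in `C`,
and for all generic `G`, if `φ` holds in `M[G]` about `Γ^G` and `σ^G`, then this is forced by
some `p ∈ G`. -/
structure ForcingTheorem (M C : Set ZFSet.{0}) (P L : ZFSet.{0}) : Prop where
  definability : ∀ (k n : ℕ) (φ : Fml (Fin k) n) (Γ : Fin k → ZFSet.{0}),
    (∀ a, Γ a ∈ C ∧ IsName {p | p ∈ P} (Γ a)) →
      ∃ X ∈ C, ∀ x, x ∈ X ↔ ∃ p ∈ P, ∃ σ : Fin n → ZFSet.{0},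
        (∀ i, σ i ∈ M ∧ IsName {p | p ∈ P} (σ i)) ∧ x = pair p (tp σ) ∧ Forces M C P L p φ Γ σ
  truth : ∀ (k n : ℕ) (φ : Fml (Fin k) n) (Γ : Fin k → ZFSet.{0}),
    (∀ a, Γ a ∈ C ∧ IsName {p | p ∈ P} (Γ a)) → ∀ σ : Fin n → ZFSet.{0},
      (∀ i, σ i ∈ M ∧ IsName {p | p ∈ P} (σ i)) → ∀ G, IsGen C P L G →
        Sat (Ext M {p | p ∈ P} G) (fun a => val G (Γ a)) φ (fun i => val G (σ i)) →
          ∃ p ∈ G, Forces M C P L p φ Γ σ

end Q207.GB
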