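import Pool.Agent.Q207.GB.Truth

/-!
# The forcing theorem
-/

set_option autoImplicit false

namespace Q207.GB

open ZFSet (pair)
open Pool.Agent.W868 (Fml Sat Dfn DfnF IsBase TOver tOver_inr nat)
open Q207.CF (IsName val mem_val Ext IsFilter IsDense wf_name isName_iff)
open Q207.CM (HC hc_trans hc_of hc_countable hc_pair hc_sUnion hc_omega base_hc)

theorem isName_mono {P Q σ : ZFSet.{0}} (h : ∀ p ∈ P, p ∈ Q) (hσ : IsName {p | p ∈ P} σ) :
    IsName {p | p ∈ Q} σ := by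
  induction hσ with
  | mk σ h1 h2 ih =>
    refine ⟨σ, fun x hx => ?_, fun τ p hx => ih τ p hx⟩
    obtain ⟨τ, p, hp, hx'⟩ := h1 x hx
    exact ⟨τ, p, h p hp, hx'⟩

theorem isName_cut {P L : ZFSet.{0}} {K : Set ZFSet.{0}} (hK : Cl P L K) {σ : ZFSet.{0}}
    (hσM : σ ∈ Ms K) (hσ : IsName {p | p ∈ P} σ) : IsName {p | p ∈ cut K P} σ := by
  induction hσ with
  | mk σ h1 h2 ih =>
    refine ⟨σ, fun x hx => ?_, fun τ p hx => ?_⟩
    · obtain ⟨τ, p, hp, rfl⟩ := h1 x hx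
      exact ⟨τ, p, mem_cut.2 ⟨hp, (hK.of_pair (hK.trans _ hσM _ hx)).2⟩, rfl⟩
    · exact ih τ p hx (hK.of_pair (hK.trans _ hσM _ hx)).1

theorem tp_hc : {n : ℕ} → {σ : Fin n → ZFSet.{0}} → (∀ i, σ i ∈ HC) → tp σ ∈ HC
  | 0, _, _ => hc_trans _ hc_omega _ ZFSet.omega_zero
  | _ + 1, _, h => hc_opair (h 0) (tp_hc fun i => h _)

theorem tp_inj : {n : ℕ} → {σ τ : Fin n → ZFSet.{0}} → tp σ = tp τ → σ = τ
  | 0, _, _, _ => funext fun i => i.elim0
  | _ + 1, σ, τ, h => by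
    obtain ⟨h1, h2⟩ := ZFSet.pair_inj.1 h
    have h3 := tp_inj h2
    funext i
    refine Fin.cases ?_ (fun i => ?_) i
    · exact h1
    · exact congrFun h3 i

theorem tp_mem {P L : ZFSet.{0}} {K : Set ZFSet.{0}} (hK : Cl P L K) : {n : ℕ} →
    {σ : Fin n → ZFSet.{0}} → ((∀ i, σ i ∈ Ms K) → tp σ ∈ Ms K)
  | 0, _, _ => by
    refine hK.eq_mem (hc_trans _ hc_omega _ ZFSet.omega_zero) ?_
    have h1 : Dfn K HC fun w : Fin 1 → ZFSet.{0} => ∀ z ∈ w 0, False :=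
      base_hc.ball (DfnF.proj 0) (Dfn.prop False)
    refine h1.congr fun w _ => ?_
    rw [show tp (_ : Fin 0 → ZFSet.{0}) = ∅ from rfl, ZFSet.eq_empty]
  | _ + 1, _, h => hK.pair_mem (h 0) (tp_mem hK fun i => h _)

theorem of_tp_mem {P L : ZFSet.{0}} {K : Set ZFSet.{0}} (hK : Cl P L K) : {n : ℕ} →
    {σ : Fin n → ZFSet.{0}} → tp σ ∈ Ms K → ∀ i, σ i ∈ Ms K
  | 0, _, _, i => i.elim0
  | _ + 1, σ, h, i => by
    have h1 := hK.of_pair h
    refine Fin.cases ?_ (fun i => ?_) i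
    · exact h1.1
    · exact of_tp_mem hK h1.2 i

section

variable {P L : ZFSet.{0}} {K : Set ZFSet.{0}} (hL : IsPO P L) (hK : Cl P L K) (hP : P ∈ K)
  (hLK : L ∈ K) (hE : Ec L ∈ K)

include hL hK hP hLK hE

theorem truth_mem {G : Set ZFSet.{0}} (hG : Gt P L K G) {X Y : ZFSet.{0}} (hX : X ∈ K)
    (hY : Y ∈ K) : val G (cut K X) ∈ val G (cut K Y) ↔ ∃ p ∈ G, Fmem L X Y p := by
  have hB := base_hc
  have hYH : ∀ {π e}, pair π e ∈ Y → π ∈ HC ∧ e ∈ HC := fun h => hc_of_opair (hK.sub Y hY _ h)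
  constructor
  · intro h
    obtain ⟨π, e, he, h1, h2⟩ := mem_val.1 h
    rw [mem_cut_pair hK] at h1
    obtain ⟨h1, hπ, heM⟩ := h1
    obtain ⟨p, hp, h3⟩ := (truth_eq hL hK hP hLK hE hG X hX π hπ.1).1 (by
      rw [cut_set hK hπ]
      exact h2)
    obtain ⟨s, hs, h4, h5⟩ := hG.dir p hp e he
    refine ⟨s, hs, fun q hq => ⟨q, hL.refl _ (hL.left hq), π, e, h1, hL.trans _ _ _ hq h5, ?_⟩⟩
    exact feq_mono hL h3 (hL.trans _ _ _ hq h4)
  · rintro ⟨p, hp, h⟩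
    -- the equality with the class `X` is definable
    have hd : ∀ {n : ℕ} {F F' : (Fin n → ZFSet.{0}) → ZFSet.{0}}, DfnF K HC F → DfnF K HC F' →
        Dfn K HC fun w => Feq L X (F w) (F' w) := by
      intro n F F' hF hF'
      have h1 := hK.force 1 (.eq (Sum.inr X) (Sum.inl 0)) ⟨tOver_inr.2 hX, TOver.inl _⟩
      have h2 : Dfn K HC fun w : Fin 2 → ZFSet.{0} => Feq L X (w 0) (w 1) := by
        have h3 : Dfn K HC fun w : Fin 2 → ZFSet.{0} =>
            (∀ π ∈ HC, ∀ e ∈ HC, pair π e ∈ X → ∀ q ∈ HC, pair q (w 1) ∈ L → pair q e ∈ L →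
              ∃ r ∈ HC, pair r q ∈ L ∧ ∃ π' ∈ HC, ∃ e' ∈ HC, pair π' e' ∈ w 0 ∧ pair r e' ∈ L ∧
                Feq L π π' r) ∧
            (∀ π' ∈ HC, ∀ e' ∈ HC, pair π' e' ∈ w 0 → ∀ q ∈ HC, pair q (w 1) ∈ L →
              pair q e' ∈ L → ∃ r ∈ HC, pair r q ∈ L ∧ ∃ π ∈ HC, ∃ e ∈ HC, pair π e ∈ X ∧
                pair r e ∈ L ∧ Feq L π π' r) := by
          apply Dfn.and
          · apply Dfn.all
            apply Dfn.all
            apply Dfn.imp
            · exact dfn_cls hK hX (hB.pair' (DfnF.proj 1) (DfnF.proj 0))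
            apply Dfn.all
            apply Dfn.imp
            · exact dfn_cls hK hLK (hB.pair' (DfnF.proj 0) (DfnF.proj 4))
            apply Dfn.imp
            · exact dfn_cls hK hLK (hB.pair' (DfnF.proj 0) (DfnF.proj 1))
            apply Dfn.ex
            apply Dfn.and
            · exact dfn_cls hK hLK (hB.pair' (DfnF.proj 0) (DfnF.proj 1))
            apply Dfn.ex
            apply Dfn.ex
            apply Dfn.and
            · exact Dfn.mem (hB.pair' (DfnF.proj 1) (DfnF.proj 0)) (DfnF.proj 6)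
            apply Dfn.and
            · exact dfn_cls hK hLK (hB.pair' (DfnF.proj 2) (DfnF.proj 0))
            · exact dfn_feq hK hE (DfnF.proj 5) (DfnF.proj 1) (DfnF.proj 2)
          · apply Dfn.all
            apply Dfn.all
            apply Dfn.imp
            · exact Dfn.mem (hB.pair' (DfnF.proj 1) (DfnF.proj 0)) (DfnF.proj 2)
            apply Dfn.all
            apply Dfn.imp
            · exact dfn_cls hK hLK (hB.pair' (DfnF.proj 0) (DfnF.proj 4))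
            apply Dfn.imp
            · exact dfn_cls hK hLK (hB.pair' (DfnF.proj 0) (DfnF.proj 1))
            apply Dfn.ex
            apply Dfn.and
            · exact dfn_cls hK hLK (hB.pair' (DfnF.proj 0) (DfnF.proj 1))
            apply Dfn.ex
            apply Dfn.ex
            apply Dfn.and
            · exact dfn_cls hK hX (hB.pair' (DfnF.proj 1) (DfnF.proj 0))
            apply Dfn.and
            · exact dfn_cls hK hLK (hB.pair' (DfnF.proj 2) (DfnF.proj 0))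
            · exact dfn_feq hK hE (DfnF.proj 1) (DfnF.proj 5) (DfnF.proj 2)
        refine h3.congr fun w hw => ?_
        rw [feq_iff]
        have hPH := hK.sub P hP
        have hXH : ∀ {π e}, pair π e ∈ X → π ∈ HC ∧ e ∈ HC := fun h =>
          hc_of_opair (hK.sub X hX _ h)
        have hwH : ∀ {π e}, pair π e ∈ w 0 → π ∈ HC ∧ e ∈ HC := fun h =>
          hc_of_opair (hc_trans _ (hw 0) _ h)
        constructor
        · rintro ⟨k1, k2⟩
          constructor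
          · intro π e h1 q h2 h3
            obtain ⟨r, -, h4, π', -, e', -, h5, h6⟩ := k1 π (hXH h1).1 e (hXH h1).2 h1 q
              (hPH _ (hL.left h2)) h2 h3
            exact ⟨r, h4, π', e', h5, h6⟩
          · intro π e h1 q h2 h3
            obtain ⟨r, -, h4, π', -, e', -, h5, h6⟩ := k2 π (hwH h1).1 e (hwH h1).2 h1 q
              (hPH _ (hL.left h2)) h2 h3
            exact ⟨r, h4, π', e', h5, h6⟩
        · rintro ⟨k1, k2⟩
          constructor
          · intro π _ e _ h1 q _ h2 h3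
            obtain ⟨r, h4, π', e', h5, h6⟩ := k1 π e h1 q h2 h3
            exact ⟨r, hPH _ (hL.left h4), h4, π', (hwH h5).1, e', (hwH h5).2, h5, h6⟩
          · intro π _ e _ h1 q _ h2 h3
            obtain ⟨r, h4, π', e', h5, h6⟩ := k2 π e h1 q h2 h3
            exact ⟨r, hPH _ (hL.left h4), h4, π', (hXH h5).1, e', (hXH h5).2, h5, h6⟩
      exact Dfn.comp2 (Q := fun a b => Feq L X a b) h2 hF hF'
    obtain ⟨s, hs, -, h4⟩ := Gt.below hL hK hP hLK hG hp
      (fun r => ∃ π ∈ HC, ∃ e ∈ HC, pair π e ∈ Y ∧ pair r e ∈ L ∧ Feq L X π r) (by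
      apply Dfn.ex
      apply Dfn.ex
      apply Dfn.and
      · exact dfn_cls hK hY (hB.pair' (DfnF.proj 1) (DfnF.proj 0))
      apply Dfn.and
      · exact dfn_cls hK hLK (hB.pair' (DfnF.proj 2) (DfnF.proj 0))
      · exact hd (DfnF.proj 1) (DfnF.proj 2)) (by
      intro r hr
      obtain ⟨s, hs, π, e, h4, h5⟩ := h r hr
      exact ⟨s, hs, π, (hYH h4).1, e, (hYH h4).2, h4, h5⟩)
    have hsM := (hG.sub s hs).2
    obtain ⟨x, hx, π, hπ', e, he', h5, h6, h7, h8⟩ := hK.wit (R := fun x => ∃ π ∈ HC,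
        ∃ e ∈ HC, x = pair π e ∧ pair π e ∈ Y ∧ pair s e ∈ L ∧ Feq L X π s) (by
      apply Dfn.ex
      apply Dfn.ex
      apply Dfn.and
      · exact Dfn.eq (DfnF.proj 2) (hB.pair' (DfnF.proj 1) (DfnF.proj 0))
      apply Dfn.and
      · exact dfn_cls hK hY (hB.pair' (DfnF.proj 1) (DfnF.proj 0))
      apply Dfn.and
      · exact dfn_cls hK hLK (hB.pair' (dfn_const hK hsM) (DfnF.proj 0))
      · exact hd (DfnF.proj 1) (dfn_const hK hsM)) (by
      obtain ⟨π, hπ', e, he', h5⟩ := h4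
      exact ⟨pair π e, hc_opair hπ' he', π, hπ', e, he', rfl, h5⟩)
    subst h5
    obtain ⟨hπM', heM'⟩ := hK.of_pair hx
    have h9 := (truth_eq hL hK hP hLK hE hG X hX π hπM'.1).2 ⟨s, hs, h8⟩
    rw [cut_set hK hπM'] at h9
    exact mem_val.2 ⟨π, e, hG.up s hs e heM' h7, (mem_cut_pair hK).2 ⟨h6, hπM', heM'⟩, h9⟩

omit hL hP hLK hE in
/-- Forcing a formula about fixed names is definable. -/
theorem dfn_sf {n : ℕ} {φ : Fml ZFSet.{0} n} (hφ : φ.Over K) {v : Fin n → ZFSet.{0}}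
    (hv : ∀ i, v i ∈ Ms K) : Dfn K HC fun w : Fin 1 → ZFSet.{0} => w 0 ∈ P ∧
      SF P L id φ v (w 0) := by
  let σ : Fin n → Fin 0 ⊕ ZFSet.{0} := fun i => Sum.inr (v i)
  have hσ : ∀ j, TOver K (σ j) := fun j => tOver_inr.2 (hv j).1
  have h1 := hK.force 0 (φ.subst σ) (Pool.Agent.W868.over_subst _ _ hσ hφ)
  have h0 : (∅ : ZFSet.{0}) ∈ Ms K := tp_mem hK (n := 0) (σ := Fin.elim0) fun i => i.elim0
  refine (dfn_cls hK h1 (base_hc.pair' (DfnF.proj 0) (dfn_const hK h0))).congr fun w hw => ?_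
  rw [fc, ZFSet.mem_sep, mem_Hs]
  have h2 : ∀ p, SF P L id (φ.subst σ) (Fin.elim0 : Fin 0 → ZFSet.{0}) p ↔ SF P L id φ v p := by
    intro p
    rw [sf_subst]
    exact Iff.rfl
  constructor
  · rintro ⟨-, p, hp, σ', -, h3, h4⟩
    obtain ⟨h5, -⟩ := ZFSet.pair_inj.1 h3
    rw [h5]
    refine ⟨hp, (h2 p).1 ?_⟩
    rwa [show σ' = Fin.elim0 from funext fun i => i.elim0] at h4
  · rintro ⟨hp, h3⟩
    exact ⟨hc_opair (hw 0) h0.2, w 0, hp, Fin.elim0, fun i => i.elim0, rfl, (h2 _).2 h3⟩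

omit hL hP hLK hE in
/-- Forcing a formula about a variable name and fixed names is definable. -/
theorem dfn_sf_cons {n : ℕ} {φ : Fml ZFSet.{0} (n + 1)} (hφ : φ.Over K) {v : Fin n → ZFSet.{0}}
    (hv : ∀ i, v i ∈ Ms K) : Dfn K HC fun w : Fin 2 → ZFSet.{0} => w 1 ∈ P ∧
      IsName {p | p ∈ P} (w 0) ∧ SF P L id φ (Fin.cons (w 0) v) (w 1) := by
  let σ : Fin (n + 1) → Fin 1 ⊕ ZFSet.{0} := Fin.cons (Sum.inl 0) fun i => Sum.inr (v i)
  have hσ : ∀ j, TOver K (σ j) := by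
    intro j
    refine Fin.cases ?_ (fun j => ?_) j
    · exact TOver.inl 0
    · exact tOver_inr.2 (hv j).1
  have h1 := hK.force 1 (φ.subst σ) (Pool.Agent.W868.over_subst _ _ hσ hφ)
  have h0 : (∅ : ZFSet.{0}) ∈ Ms K := tp_mem hK (n := 0) (σ := Fin.elim0) fun i => i.elim0
  refine (dfn_cls hK h1 (base_hc.pair' (DfnF.proj 1) (base_hc.pair' (DfnF.proj 0)
    (dfn_const hK h0)))).congr fun w hw => ?_
  rw [fc, ZFSet.mem_sep, mem_Hs]
  have h2 : ∀ (u : Fin 1 → ZFSet.{0}) p, SF P L id (φ.subst σ) u p ↔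
      SF P L id φ (Fin.cons (u 0) v) p := by
    intro u p
    rw [sf_subst]
    have h2 : (fun j => Sum.elim u id (σ j)) = (Fin.cons (u 0) v : Fin (n + 1) → ZFSet.{0}) := by
      funext j
      refine Fin.cases ?_ (fun j => ?_) j
      · rfl
      · rfl
    rw [h2]
  constructor
  · rintro ⟨-, p, hp, σ', h6, h3, h4⟩
    obtain ⟨h5, h7⟩ := ZFSet.pair_inj.1 h3
    obtain ⟨h8, -⟩ := ZFSet.pair_inj.1 h7
    rw [h5, h8]
    exact ⟨hp, (h6 0).2, (h2 σ' p).1 h4⟩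
  · rintro ⟨hp, h4, h3⟩
    refine ⟨hc_opair (hw 1) (hc_opair (hw 0) h0.2), w 1, hp, fun _ => w 0,
      fun i => ⟨hw 0, h4⟩, rfl, (h2 _ _).2 h3⟩

theorem truth_sf {G : Set ZFSet.{0}} (hG : Gt P L K G) : {n : ℕ} → (φ : Fml ZFSet.{0} n) →
    φ.Over K → (v : Fin n → ZFSet.{0}) → (∀ i, v i ∈ Ms K ∧ IsName {p | p ∈ P} (v i)) →
      (Sat (Ext (Ms K) {p | p ∈ cut K P} G) (fun a => val G (cut K a)) φ
        (fun i => val G (v i)) ↔ ∃ p ∈ G, SF P L id φ v p) := by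
  have hB := base_hc
  have ht : ∀ {n : ℕ} {v : Fin n → ZFSet.{0}}, (∀ i, v i ∈ Ms K) → ∀ t : Fin n ⊕ ZFSet.{0},
      TOver K t → Sum.elim v id t ∈ K ∧
        Sum.elim (fun i => val G (v i)) (fun a => val G (cut K a)) t =
          val G (cut K (Sum.elim v id t)) := by
    intro n v hv t ht
    cases t with
    | inl i =>
      refine ⟨(hv i).1, ?_⟩
      change val G (v i) = val G (cut K (v i))
      rw [cut_set hK (hv i)]
    | inr a => exact ⟨ht a rfl, rfl⟩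
  intro n φ
  induction φ with
  | mem a b =>
    intro h v hv
    have h1 := ht (fun i => (hv i).1) a h.1
    have h2 := ht (fun i => (hv i).1) b h.2
    simp only [Sat, SF]
    rw [h1.2, h2.2]
    exact truth_mem hL hK hP hLK hE hG h1.1 h2.1
  | eq a b =>
    intro h v hv
    have h1 := ht (fun i => (hv i).1) a h.1
    have h2 := ht (fun i => (hv i).1) b h.2
    simp only [Sat, SF]
    rw [h1.2, h2.2]
    exact truth_eq hL hK hP hLK hE hG _ h1.1 _ h2.1
  | neg φ ih =>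
    intro h v hv
    simp only [Sat, SF]
    rw [ih h v hv]
    constructor
    · intro h1
      obtain ⟨p, hp, h2⟩ := hG.meet (fun p => (p ∈ P ∧ SF P L id φ v p) ∨
          ∀ q ∈ HC, pair q p ∈ L → ¬ (q ∈ P ∧ SF P L id φ v q)) (by
        have h3 := dfn_sf hK (φ := φ) h fun i => (hv i).1
        apply Dfn.or
        · exact h3
        · apply Dfn.all
          apply Dfn.imp
          · exact dfn_cls hK hLK (hB.pair' (DfnF.proj 0) (DfnF.proj 1))
          · exact (Dfn.comp1 (Q := fun p => p ∈ P ∧ SF P L id φ v p) h3 (DfnF.proj 0)).not) (by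
        intro p hp
        by_cases h2 : ∃ q, pair q p ∈ L ∧ SF P L id φ v q
        · obtain ⟨q, hq, h3⟩ := h2
          exact ⟨q, hq, Or.inl ⟨hL.left hq, h3⟩⟩
        · exact ⟨p, hL.refl p hp, Or.inr fun q _ hq h3 => h2 ⟨q, hq, h3.2⟩⟩)
      rcases h2 with h2 | h2
      · exact absurd ⟨p, hp, h2.2⟩ h1
      · exact ⟨p, hp, fun q hq h3 => h2 q (hK.sub P hP _ (hL.left hq)) hq ⟨hL.left hq, h3⟩⟩
    · rintro ⟨p, hp, h1⟩ ⟨q, hq, h2⟩
      obtain ⟨r, hr, h3, h4⟩ := hG.dir p hp q hq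
      exact h1 r h3 (sf_mono hL h2 h4)
  | and φ ψ ih1 ih2 =>
    intro h v hv
    simp only [Sat, SF]
    rw [ih1 h.1 v hv, ih2 h.2 v hv]
    constructor
    · rintro ⟨⟨p, hp, h1⟩, ⟨q, hq, h2⟩⟩
      obtain ⟨r, hr, h3, h4⟩ := hG.dir p hp q hq
      exact ⟨r, hr, sf_mono hL h1 h3, sf_mono hL h2 h4⟩
    · rintro ⟨p, hp, h1, h2⟩
      exact ⟨⟨p, hp, h1⟩, ⟨p, hp, h2⟩⟩
  | ex φ ih =>
    intro h v hv
    simp only [Sat, SF]
    have hc : ∀ a, a ∈ Ms K ∧ IsName {p | p ∈ P} a →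
        ∀ k, (Fin.cons a v : Fin _ → ZFSet.{0}) k ∈ Ms K ∧
          IsName {p | p ∈ P} ((Fin.cons a v : Fin _ → ZFSet.{0}) k) := by
      intro a ha k
      refine Fin.cases ?_ (fun k => ?_) k
      · exact ha
      · exact hv k
    have hcv : ∀ a, (Fin.cons (val G a) fun i => val G (v i) : Fin _ → ZFSet.{0}) =
        fun i => val G ((Fin.cons a v : Fin _ → ZFSet.{0}) i) := by
      intro a
      funext k
      refine Fin.cases ?_ (fun k => ?_) k
      · rfl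
      · rfl
    constructor
    · rintro ⟨x, ⟨a, ha, hn, rfl⟩, h1⟩
      have hn' : IsName {p | p ∈ P} a := isName_mono (fun p hp => (mem_cut.1 hp).1) hn
      rw [hcv, ih h _ (hc a ⟨ha, hn'⟩)] at h1
      obtain ⟨p, hp, h2⟩ := h1
      exact ⟨p, hp, fun q hq => ⟨q, hL.refl _ (hL.left hq), a, ha.2, hn', sf_mono hL h2 hq⟩⟩
    · rintro ⟨p, hp, h1⟩
      have hd := dfn_sf_cons (P := P) (L := L) hK (φ := φ) h fun i => (hv i).1
      obtain ⟨s, hs, -, h2⟩ := Gt.below hL hK hP hLK hG hp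
        (fun r => ∃ a ∈ HC, r ∈ P ∧ IsName {p | p ∈ P} a ∧ SF P L id φ (Fin.cons a v) r) (by
        apply Dfn.ex
        exact hd) (by
        intro r hr
        obtain ⟨s, hs, a, ha, h2, h3⟩ := h1 r hr
        exact ⟨s, hs, a, ha, hL.left hs, h2, h3⟩)
      have hsM := (hG.sub s hs).2
      obtain ⟨a, ha, -, h3, h4⟩ := hK.wit
        (R := fun a => s ∈ P ∧ IsName {p | p ∈ P} a ∧ SF P L id φ (Fin.cons a v) s)
        (Dfn.comp2 (Q := fun a s => s ∈ P ∧ IsName {p | p ∈ P} a ∧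
          SF P L id φ (Fin.cons a v) s) hd (DfnF.proj 0) (dfn_const hK hsM)) h2
      refine ⟨val G a, ⟨a, ha, isName_cut hK ha h3, rfl⟩, ?_⟩
      rw [hcv, ih h _ (hc a ⟨ha, h3⟩)]
      exact ⟨s, hs, h4⟩

/-- Semantic forcing over the model is the star forcing relation. -/
theorem forces_iff {s : ZFSet.{0} → ZFSet.{0}} (hs : ∀ Y ∈ Cs K, s Y ∈ K ∧ cut K (s Y) = Y)
    {k n : ℕ} (φ : Fml (Fin k) n) {Γ : Fin k → ZFSet.{0}} (hΓ : ∀ a, Γ a ∈ Cs K)
    {σ : Fin n → ZFSet.{0}} (hσ : ∀ i, σ i ∈ Ms K ∧ IsName {p | p ∈ P} (σ i)) {p : ZFSet.{0}}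
    (hp : p ∈ cut K P) : Forces (Ms K) (Cs K) (cut K P) (cut K L) p φ Γ σ ↔
      SF P L id (φ.map fun a => s (Γ a)) σ p := by
  have hov : (φ.map fun a => s (Γ a)).Over K := by
    rw [Pool.Agent.W868.over_map]
    have h1 : ∀ {m : ℕ} (ψ : Fml (Fin k) m), ψ.Over ((fun a => s (Γ a)) ⁻¹' K) := by
      intro m ψ
      have h2 : (fun a => s (Γ a)) ⁻¹' K = Set.univ := by
        ext a
        exact ⟨fun _ => trivial, fun _ => (hs _ (hΓ a)).1⟩
      rw [h2]
      induction ψ with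
      | mem a b => exact ⟨fun _ _ => trivial, fun _ _ => trivial⟩
      | eq a b => exact ⟨fun _ _ => trivial, fun _ _ => trivial⟩
      | neg φ ih => exact ih
      | and φ ψ ih1 ih2 => exact ⟨ih1, ih2⟩
      | ex φ ih => exact ih
    exact h1 φ
  have hsat : ∀ G, Gt P L K G → (Sat (Ext (Ms K) {p | p ∈ cut K P} G) (fun a => val G (Γ a)) φ
      (fun i => val G (σ i)) ↔ ∃ p ∈ G, SF P L id (φ.map fun a => s (Γ a)) σ p) := by
    intro G hG
    rw [← truth_sf hL hK hP hLK hE hG _ hov σ hσ, Pool.Agent.W868.sat_map]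
    have h1 : ((fun a => val G (cut K a)) ∘ fun a => s (Γ a)) = fun a => val G (Γ a) := by
      funext a
      change val G (cut K (s (Γ a))) = _
      rw [(hs _ (hΓ a)).2]
    rw [h1]
  have hp' := mem_cut.1 hp
  constructor
  · intro h
    refine sf_dense hL _ hp'.1 ?_
    by_contra h1
    push Not at h1
    obtain ⟨q, hq, h2⟩ := h1
    have h3 : Dfn K HC fun w : Fin 1 → ZFSet.{0} => w 0 ∈ P ∧
        SF P L id (.neg (φ.map fun a => s (Γ a))) σ (w 0) :=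
      dfn_sf hK (φ := .neg (φ.map fun a => s (Γ a))) hov fun i => (hσ i).1
    obtain ⟨q, hqM, h4, h5, h6⟩ := hK.wit (R := fun q => pair q p ∈ L ∧ (q ∈ P ∧
        SF P L id (.neg (φ.map fun a => s (Γ a))) σ q)) (by
      apply Dfn.and
      · exact dfn_cls hK hLK (base_hc.pair' (DfnF.proj 0) (dfn_const hK hp'.2))
      · exact h3) ⟨q, hK.sub P hP q (hL.left hq), hq, hL.left hq, h2⟩
    obtain ⟨G, hG, hqG⟩ := exists_gen (countable_Cs hK) (isPO_cut hL hK hP hLK)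
      (mem_cut.2 ⟨h5, hqM⟩)
    have hGt := gt_of_isGen hL hK hP hLK hG
    have h7 := (hsat G hGt).1 (h G hG (hGt.up q hqG p hp'.2 h4))
    obtain ⟨r, hr, h8⟩ := h7
    obtain ⟨t, ht, h9, h10⟩ := hGt.dir q hqG r hr
    exact h6 t h9 (sf_mono hL h8 h10)
  · intro h G hG hpG
    exact (hsat G (gt_of_isGen hL hK hP hLK hG)).2 ⟨p, hpG, h⟩

theorem forcingTheorem : ForcingTheorem (Ms K) (Cs K) (cut K P) (cut K L) := by
  obtain ⟨s, hs⟩ := exists_star (K := K)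
  have hname : ∀ {σ : ZFSet.{0}}, IsName {p | p ∈ cut K P} σ → IsName {p | p ∈ P} σ :=
    fun h => isName_mono (fun p hp => (mem_cut.1 hp).1) h
  have hov : ∀ {k n : ℕ} (φ : Fml (Fin k) n) {Γ : Fin k → ZFSet.{0}}, (∀ a, Γ a ∈ Cs K) →
      (φ.map fun a => s (Γ a)).Over K := by
    intro k n φ Γ hΓ
    rw [Pool.Agent.W868.over_map]
    have h2 : (fun a => s (Γ a)) ⁻¹' K = Set.univ := by
      ext a
      exact ⟨fun _ => trivial, fun _ => (hs _ (hΓ a)).1⟩
    rw [h2]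
    induction φ with
    | mem a b => exact ⟨fun _ _ => trivial, fun _ _ => trivial⟩
    | eq a b => exact ⟨fun _ _ => trivial, fun _ _ => trivial⟩
    | neg φ ih => exact ih
    | and φ ψ ih1 ih2 => exact ⟨ih1, ih2⟩
    | ex φ ih => exact ih
  constructor
  · intro k n φ Γ hΓ
    refine ⟨cut K (fc P L (φ.map fun a => s (Γ a))),
      ⟨_, hK.force n _ (hov φ fun a => (hΓ a).1), rfl⟩, fun x => ?_⟩
    rw [mem_cut, fc, ZFSet.mem_sep, mem_Hs]
    constructor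
    · rintro ⟨⟨-, p, hp, σ, hσ, rfl, h1⟩, hx⟩
      obtain ⟨hpM, ht⟩ := hK.of_pair hx
      have hσM := of_tp_mem hK ht
      have hp' : p ∈ cut K P := mem_cut.2 ⟨hp, hpM⟩
      refine ⟨p, hp', σ, fun i => ⟨hσM i, isName_cut hK (hσM i) (hσ i).2⟩, rfl, ?_⟩
      exact (forces_iff hL hK hP hLK hE hs φ (fun a => (hΓ a).1)
        (fun i => ⟨hσM i, (hσ i).2⟩) hp').2 h1
    · rintro ⟨p, hp, σ, hσ, rfl, h1⟩
      have hp' := mem_cut.1 hp
      have hx := hK.pair_mem hp'.2 (tp_mem hK fun i => (hσ i).1)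
      refine ⟨⟨hx.2, p, hp'.1, σ, fun i => ⟨(hσ i).1.2, hname (hσ i).2⟩, rfl, ?_⟩, hx⟩
      exact (forces_iff hL hK hP hLK hE hs φ (fun a => (hΓ a).1)
        (fun i => ⟨(hσ i).1, hname (hσ i).2⟩) hp).1 h1
  · intro k n φ Γ hΓ σ hσ G hG h
    have hGt := gt_of_isGen hL hK hP hLK hG
    have hσ' : ∀ i, σ i ∈ Ms K ∧ IsName {p | p ∈ P} (σ i) := fun i => ⟨(hσ i).1, hname (hσ i).2⟩
    have h1 : Sat (Ext (Ms K) {p | p ∈ cut K P} G) (fun a => val G (cut K a))
        (φ.map fun a => s (Γ a)) (fun i => val G (σ i)) := by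
      rw [Pool.Agent.W868.sat_map]
      have h2 : ((fun a => val G (cut K a)) ∘ fun a => s (Γ a)) = fun a => val G (Γ a) := by
        funext a
        change val G (cut K (s (Γ a))) = _
        rw [(hs _ (hΓ a).1).2]
      rw [h2]
      exact h
    obtain ⟨p, hp, h3⟩ := (truth_sf hL hK hP hLK hE hGt _ (hov φ fun a => (hΓ a).1) σ hσ').1 h1
    refine ⟨p, hp, (forces_iff hL hK hP hLK hE hs φ (fun a => (hΓ a).1) hσ' ?_).2 h3⟩
    exact mem_cut.2 (hGt.sub p hp)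

end

end Q207.GB
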