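import Pool.Agent.Q207.GB.Forc

/-!
# A class forcing that turns the power set of `ω` into a set
-/

set_option autoImplicit false

namespace Q207.GB

open ZFSet (pair)
open Pool.Agent.W868 (Fml Sat Dfn DfnF IsBase TOver tOver_inr nat nat_injective mem_omega_iff
  nat_mem_omega fs sn fs_pair sn_pair)
open Q207.CF (IsName val mem_val Ext IsFilter IsDense wf_name isName_iff)
open Q207.CM (HC hc_trans hc_of hc_countable hc_pair hc_sUnion hc_omega base_hc)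

/-- The token that says that the `i`-th set is `y`. -/
noncomputable def tA (i y : ZFSet.{0}) : ZFSet.{0} := pair (nat 1) (pair i y)

/-- The token that says that `n` is an element of the `i`-th set. -/
noncomputable def tT (i n : ZFSet.{0}) : ZFSet.{0} := pair (nat 0) (pair i n)

theorem tA_inj {i y i' y' : ZFSet.{0}} (h : tA i y = tA i' y') : i = i' ∧ y = y' :=
  ZFSet.pair_inj.1 (ZFSet.pair_inj.1 h).2

theorem tT_inj {i y i' y' : ZFSet.{0}} (h : tT i y = tT i' y') : i = i' ∧ y = y' :=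
  ZFSet.pair_inj.1 (ZFSet.pair_inj.1 h).2

theorem tA_ne {i y i' y' : ZFSet.{0}} : tA i y ≠ tT i' y' := fun h =>
  absurd (nat_injective (ZFSet.pair_inj.1 h).1) (by decide)

/-- The conditions: finite consistent sets of tokens. -/
structure Good (s : ZFSet.{0}) : Prop where
  fin : {x | x ∈ s}.Finite
  tok : ∀ x ∈ s, (∃ i ∈ ZFSet.omega, ∃ y, y ⊆ ZFSet.omega ∧ x = tA i y) ∨
    ∃ i ∈ ZFSet.omega, ∃ n ∈ ZFSet.omega, x = tT i n
  fn : ∀ i y y', tA i y ∈ s → tA i y' ∈ s → y = y'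
  con : ∀ i y n, tA i y ∈ s → tT i n ∈ s → n ∈ y

theorem good_empty : Good ∅ := by
  refine ⟨Set.Finite.subset Set.finite_empty fun x hx => ?_, fun x hx => ?_, fun i y y' h => ?_,
    fun i y n h => ?_⟩
  · exact absurd hx (ZFSet.notMem_empty _)
  · exact absurd hx (ZFSet.notMem_empty _)
  · exact absurd h (ZFSet.notMem_empty _)
  · exact absurd h (ZFSet.notMem_empty _)

theorem finite_insert {s x : ZFSet.{0}} (h : {x | x ∈ s}.Finite) :
    {y | y ∈ insert x s}.Finite := by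
  refine (h.insert x).subset fun y hy => ?_
  rcases ZFSet.mem_insert_iff.1 hy with rfl | hy
  · exact Or.inl rfl
  · exact Or.inr hy

theorem good_A {s i y : ZFSet.{0}} (h : Good s) (hi : i ∈ ZFSet.omega) (hy : y ⊆ ZFSet.omega)
    (h1 : ∀ y', tA i y' ∉ s) (h2 : ∀ n, tT i n ∈ s → n ∈ y) : Good (insert (tA i y) s) := by
  refine ⟨finite_insert h.fin, fun x hx => ?_, fun i' z z' hz hz' => ?_, fun i' z n hz hn => ?_⟩
  · rcases ZFSet.mem_insert_iff.1 hx with rfl | hx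
    · exact Or.inl ⟨i, hi, y, hy, rfl⟩
    · exact h.tok x hx
  · rcases ZFSet.mem_insert_iff.1 hz with hz | hz
    · rcases ZFSet.mem_insert_iff.1 hz' with hz' | hz'
      · rw [(tA_inj hz).2, (tA_inj hz').2]
      · rw [(tA_inj hz).1] at hz'
        exact absurd hz' (h1 _)
    · rcases ZFSet.mem_insert_iff.1 hz' with hz' | hz'
      · rw [(tA_inj hz').1] at hz
        exact absurd hz (h1 _)
      · exact h.fn _ _ _ hz hz'
  · rcases ZFSet.mem_insert_iff.1 hn with hn | hn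
    · exact absurd hn.symm tA_ne
    · rcases ZFSet.mem_insert_iff.1 hz with hz | hz
      · rw [(tA_inj hz).1] at hn
        rw [(tA_inj hz).2]
        exact h2 n hn
      · exact h.con _ _ _ hz hn

theorem good_T {s i n : ZFSet.{0}} (h : Good s) (hi : i ∈ ZFSet.omega) (hn : n ∈ ZFSet.omega)
    (h1 : ∀ y, tA i y ∈ s → n ∈ y) : Good (insert (tT i n) s) := by
  refine ⟨finite_insert h.fin, fun x hx => ?_, fun i' z z' hz hz' => ?_, fun i' z m hz hm => ?_⟩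
  · rcases ZFSet.mem_insert_iff.1 hx with rfl | hx
    · exact Or.inr ⟨i, hi, n, hn, rfl⟩
    · exact h.tok x hx
  · rcases ZFSet.mem_insert_iff.1 hz with hz | hz
    · exact absurd hz tA_ne
    · rcases ZFSet.mem_insert_iff.1 hz' with hz' | hz'
      · exact absurd hz' tA_ne
      · exact h.fn _ _ _ hz hz'
  · rcases ZFSet.mem_insert_iff.1 hz with hz | hz
    · exact absurd hz tA_ne
    · rcases ZFSet.mem_insert_iff.1 hm with hm | hm
      · rw [(tT_inj hm).2]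
        rw [(tT_inj hm).1] at hz
        exact h1 z hz
      · exact h.con _ _ _ hz hm

theorem hc_sub {y : ZFSet.{0}} (hy : y ⊆ ZFSet.omega) : y ∈ HC :=
  hc_of ((hc_countable hc_omega).mono fun _ hz => hy hz) fun _ hz => hc_trans _ hc_omega _ (hy hz)

theorem hc_nat (n : ℕ) : nat n ∈ HC := hc_trans _ hc_omega _ (nat_mem_omega n)

theorem Good.hc {s : ZFSet.{0}} (h : Good s) : s ∈ HC := by
  refine hc_of h.fin.countable fun x hx => ?_
  rcases h.tok x hx with ⟨i, hi, y, hy, rfl⟩ | ⟨i, hi, n, hn, rfl⟩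
  · exact hc_opair (hc_nat 1) (hc_opair (hc_trans _ hc_omega _ hi) (hc_sub hy))
  · exact hc_opair (hc_nat 0) (hc_opair (hc_trans _ hc_omega _ hi) (hc_trans _ hc_omega _ hn))

/-- The class of the conditions. -/
noncomputable def P₀ : ZFSet.{0} := ZFSet.sep Good Hs

/-- The order: reverse inclusion. -/
noncomputable def L₀ : ZFSet.{0} :=
  ZFSet.sep (fun x => ∃ s t, Good s ∧ Good t ∧ t ⊆ s ∧ x = pair s t) Hs

theorem mem_P₀ {s : ZFSet.{0}} : s ∈ P₀ ↔ Good s := by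
  rw [P₀, ZFSet.mem_sep, mem_Hs]
  exact ⟨fun h => h.2, fun h => ⟨h.hc, h⟩⟩

theorem mem_L₀ {s t : ZFSet.{0}} : pair s t ∈ L₀ ↔ Good s ∧ Good t ∧ t ⊆ s := by
  rw [L₀, ZFSet.mem_sep, mem_Hs]
  constructor
  · rintro ⟨-, s', t', h1, h2, h3, h4⟩
    obtain ⟨rfl, rfl⟩ := ZFSet.pair_inj.1 h4
    exact ⟨h1, h2, h3⟩
  · rintro ⟨h1, h2, h3⟩
    exact ⟨hc_opair h1.hc h2.hc, s, t, h1, h2, h3, rfl⟩

theorem isPO₀ : IsPO P₀ L₀ := by
  refine ⟨fun x hx => ?_, fun p hp => ?_, fun p q r h1 h2 => ?_, fun p q h1 h2 => ?_, ∅, ?_, ?_⟩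
  · obtain ⟨-, s, t, h1, h2, -, h3⟩ := ZFSet.mem_sep.1 hx
    exact ⟨s, mem_P₀.2 h1, t, mem_P₀.2 h2, h3⟩
  · rw [mem_P₀] at hp
    exact mem_L₀.2 ⟨hp, hp, fun _ h => h⟩
  · rw [mem_L₀] at h1 h2 ⊢
    exact ⟨h1.1, h2.2.1, fun _ h => h1.2.2 (h2.2.2 h)⟩
  · rw [mem_L₀] at h1 h2
    ext z
    exact ⟨fun h => h2.2.2 h, fun h => h1.2.2 h⟩
  · exact mem_P₀.2 good_empty
  · intro p hp
    exact mem_L₀.2 ⟨mem_P₀.1 hp, good_empty, fun x hx => absurd hx (ZFSet.notMem_empty _)⟩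

/-! ### Names -/

/-- The name for the natural number `n`. -/
noncomputable def cn : ℕ → ZFSet.{0}
  | 0 => ∅
  | n + 1 => insert (pair (cn n) ∅) (cn n)

/-- The name for the `i`-th set. -/
noncomputable def rn (i : ℕ) : ZFSet.{0} :=
  ZFSet.range fun n : ℕ => pair (cn n) {tT (nat i) (nat n)}

/-- The name for the set of all these sets. -/
noncomputable def sgn : ZFSet.{0} := ZFSet.range fun i : ℕ => pair (rn i) ∅

theorem hc_empty : (∅ : ZFSet.{0}) ∈ HC := hc_nat 0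

theorem hc_cn (n : ℕ) : cn n ∈ HC := by
  induction n with
  | zero => exact hc_empty
  | succ n ih =>
    refine hc_of ?_ fun x hx => ?_
    · refine ((hc_countable ih).insert (pair (cn n) ∅)).mono fun x hx => ?_
      rcases ZFSet.mem_insert_iff.1 hx with rfl | hx
      · exact Or.inl rfl
      · exact Or.inr hx
    · rcases ZFSet.mem_insert_iff.1 hx with rfl | hx
      · exact hc_opair ih hc_empty
      · exact hc_trans _ ih _ hx

theorem hc_range {f : ℕ → ZFSet.{0}} (h : ∀ n, f n ∈ HC) : ZFSet.range f ∈ HC := by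
  refine hc_of ((Set.countable_range f).mono fun x hx => ?_) fun x hx => ?_
  · obtain ⟨n, rfl⟩ := ZFSet.mem_range.1 hx
    exact ⟨n, rfl⟩
  · obtain ⟨n, rfl⟩ := ZFSet.mem_range.1 hx
    exact h n

theorem hc_single {x : ZFSet.{0}} (hx : x ∈ HC) : ({x} : ZFSet.{0}) ∈ HC := by
  simpa using hc_pair hx hx

theorem good_single {i n : ZFSet.{0}} (hi : i ∈ ZFSet.omega) (hn : n ∈ ZFSet.omega) :
    Good ({tT i n} : ZFSet.{0}) := by
  have h := good_T good_empty hi hn fun y hy => absurd hy (ZFSet.notMem_empty _)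
  have h1 : (insert (tT i n) ∅ : ZFSet.{0}) = {tT i n} := by
    ext z
    simp
  rwa [h1] at h

theorem hc_rn (i : ℕ) : rn i ∈ HC :=
  hc_range fun n => hc_opair (hc_cn n) (good_single (nat_mem_omega i) (nat_mem_omega n)).hc

theorem hc_sgn : sgn ∈ HC := hc_range fun i => hc_opair (hc_rn i) hc_empty

theorem isName_cn (n : ℕ) : IsName {p | p ∈ P₀} (cn n) := by
  induction n with
  | zero =>
    rw [isName_iff]
    exact fun x hx => absurd hx (ZFSet.notMem_empty _)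
  | succ n ih =>
    rw [isName_iff] at ih ⊢
    intro x hx
    rcases ZFSet.mem_insert_iff.1 hx with rfl | hx
    · exact ⟨cn n, ∅, mem_P₀.2 good_empty, rfl, isName_iff.2 ih⟩
    · exact ih x hx

theorem isName_rn (i : ℕ) : IsName {p | p ∈ P₀} (rn i) := by
  rw [isName_iff]
  intro x hx
  obtain ⟨n, rfl⟩ := ZFSet.mem_range.1 hx
  exact ⟨_, _, mem_P₀.2 (good_single (nat_mem_omega i) (nat_mem_omega n)), rfl, isName_cn n⟩

theorem isName_sgn : IsName {p | p ∈ P₀} sgn := by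
  rw [isName_iff]
  intro x hx
  obtain ⟨n, rfl⟩ := ZFSet.mem_range.1 hx
  exact ⟨_, _, mem_P₀.2 good_empty, rfl, isName_rn n⟩

theorem val_cn {G : Set ZFSet.{0}} (h : ∅ ∈ G) (n : ℕ) : val G (cn n) = nat n := by
  induction n with
  | zero =>
    ext y
    rw [mem_val]
    change _ ↔ y ∈ ∅
    constructor
    · rintro ⟨τ, p, -, h1, -⟩
      exact absurd h1 (ZFSet.notMem_empty _)
    · intro h1
      exact absurd h1 (ZFSet.notMem_empty _)
  | succ n ih =>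
    ext y
    have hn : nat (n + 1) = insert (nat n) (nat n) := rfl
    rw [mem_val, hn, ZFSet.mem_insert_iff]
    constructor
    · rintro ⟨τ, p, hp, h1, rfl⟩
      rcases ZFSet.mem_insert_iff.1 h1 with h1 | h1
      · left
        rw [(ZFSet.pair_inj.1 h1).1, ih]
      · right
        rw [← ih]
        exact mem_val.2 ⟨τ, p, hp, h1, rfl⟩
    · rintro (rfl | h1)
      · exact ⟨cn n, ∅, h, ZFSet.mem_insert_iff.2 (Or.inl rfl), ih.symm⟩
      · rw [← ih] at h1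
        obtain ⟨τ, p, hp, h2, rfl⟩ := mem_val.1 h1
        exact ⟨τ, p, hp, ZFSet.mem_insert_iff.2 (Or.inr h2), rfl⟩

theorem mem_val_rn {G : Set ZFSet.{0}} (h : ∅ ∈ G) {i : ℕ} {y : ZFSet.{0}} :
    y ∈ val G (rn i) ↔ ∃ n : ℕ, ({tT (nat i) (nat n)} : ZFSet.{0}) ∈ G ∧ y = nat n := by
  rw [mem_val]
  constructor
  · rintro ⟨τ, p, hp, h1, rfl⟩
    obtain ⟨n, h2⟩ := ZFSet.mem_range.1 h1
    obtain ⟨rfl, rfl⟩ := ZFSet.pair_inj.1 h2
    exact ⟨n, hp, val_cn h n⟩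
  · rintro ⟨n, hn, rfl⟩
    exact ⟨cn n, _, hn, ZFSet.mem_range.2 ⟨n, rfl⟩, (val_cn h n).symm⟩

theorem mem_val_sgn {G : Set ZFSet.{0}} (h : ∅ ∈ G) {y : ZFSet.{0}} :
    y ∈ val G sgn ↔ ∃ i : ℕ, y = val G (rn i) := by
  rw [mem_val]
  constructor
  · rintro ⟨τ, p, hp, h1, rfl⟩
    obtain ⟨n, h2⟩ := ZFSet.mem_range.1 h1
    obtain ⟨rfl, rfl⟩ := ZFSet.pair_inj.1 h2
    exact ⟨n, rfl⟩
  · rintro ⟨n, rfl⟩
    exact ⟨rn n, _, h, ZFSet.mem_range.2 ⟨n, rfl⟩, rfl⟩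

/-- An index that does not occur in the condition. -/
theorem exists_fresh {s : ZFSet.{0}} (h : {x | x ∈ s}.Finite) :
    ∃ i : ℕ, (∀ y, tA (nat i) y ∉ s) ∧ ∀ n, tT (nat i) n ∉ s := by
  have h1 : {i : ℕ | nat i ∈ (fun x => fs (sn x)) '' {x | x ∈ s}}.Finite :=
    (h.image fun x => fs (sn x)).preimage fun a _ b _ hab => nat_injective hab
  obtain ⟨i, hi⟩ := h1.exists_notMem
  refine ⟨i, fun y hy => hi ⟨_, hy, ?_⟩, fun n hn => hi ⟨_, hn, ?_⟩⟩
  · simp only [tA, sn_pair, fs_pair]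
  · simp only [tT, sn_pair, fs_pair]

section

variable {K : Set ZFSet.{0}} (hK : Cl P₀ L₀ K) (hω : ZFSet.omega ∈ K)

include hK hω

theorem om_mem : ZFSet.omega ∈ Ms K := ⟨hω, hc_omega⟩

theorem nat_Ms (n : ℕ) : nat n ∈ Ms K := hK.trans _ (om_mem hK hω) _ (nat_mem_omega n)

theorem dfn_A {n : ℕ} {F F' F'' : (Fin n → ZFSet.{0}) → ZFSet.{0}} (h : DfnF K HC F)
    (h' : DfnF K HC F') (h'' : DfnF K HC F'') : Dfn K HC fun v => tA (F v) (F' v) ∈ F'' v :=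
  Dfn.mem (base_hc.pair' (dfn_const hK (nat_Ms hK hω 1)) (base_hc.pair' h h')) h''

theorem dfn_T {n : ℕ} {F F' F'' : (Fin n → ZFSet.{0}) → ZFSet.{0}} (h : DfnF K HC F)
    (h' : DfnF K HC F') (h'' : DfnF K HC F'') : Dfn K HC fun v => tT (F v) (F' v) ∈ F'' v :=
  Dfn.mem (base_hc.pair' (dfn_const hK (nat_Ms hK hω 0)) (base_hc.pair' h h')) h''

variable {G : Set ZFSet.{0}} (hG : Gt P₀ L₀ K G)

include hG

theorem empty_mem_G : (∅ : ZFSet.{0}) ∈ G := by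
  obtain ⟨p, hp⟩ := hG.nonempty
  exact hG.up p hp ∅ (nat_Ms hK hω 0) (mem_L₀.2 ⟨mem_P₀.1 (hG.sub p hp).1, good_empty,
    fun x hx => absurd hx (ZFSet.notMem_empty _)⟩)

theorem single_mem_G {i n : ℕ} {q : ZFSet.{0}} (hq : q ∈ G) (h : tT (nat i) (nat n) ∈ q) :
    ({tT (nat i) (nat n)} : ZFSet.{0}) ∈ G := by
  have hqM := (hG.sub q hq).2
  have h1 := hK.trans _ hqM _ h
  refine hG.up q hq _ ?_ (mem_L₀.2 ⟨mem_P₀.1 (hG.sub q hq).1,
    good_single (nat_mem_omega i) (nat_mem_omega n), fun x hx => ?_⟩)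
  · refine hK.eq_mem (hc_single h1.2) ?_
    exact Dfn.eq (DfnF.proj 0) (base_hc.single' (dfn_const hK h1))
  · rw [ZFSet.mem_singleton.1 hx]
    exact h

theorem val_rn {i : ℕ} {y p : ZFSet.{0}} (hp : p ∈ G) (h : tA (nat i) y ∈ p) :
    val G (rn i) = y := by
  have hpP := mem_P₀.1 (hG.sub p hp).1
  have hyω : y ⊆ ZFSet.omega := by
    rcases hpP.tok _ h with ⟨j, -, z, hz, h1⟩ | ⟨j, -, z, -, h1⟩
    · rw [(tA_inj h1).2]
      exact hz
    · exact absurd h1 tA_ne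
  ext z
  rw [mem_val_rn (empty_mem_G hK hω hG)]
  constructor
  · rintro ⟨n, hn, rfl⟩
    obtain ⟨r, hr, h1, h2⟩ := hG.dir p hp _ hn
    rw [mem_L₀] at h1 h2
    exact h1.1.con _ _ _ (h1.2.2 h) (h2.2.2 (ZFSet.mem_singleton.2 rfl))
  · intro hz
    obtain ⟨n, rfl⟩ := mem_omega_iff.1 (hyω hz)
    refine ⟨n, ?_, rfl⟩
    obtain ⟨q, hq, h1⟩ := hG.meet (fun s => tT (nat i) (nat n) ∈ s ∨
        ∃ y ∈ HC, tA (nat i) y ∈ s ∧ nat n ∉ y) (by
      apply Dfn.or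
      · exact dfn_T hK hω (dfn_const hK (nat_Ms hK hω i)) (dfn_const hK (nat_Ms hK hω n))
          (DfnF.proj 0)
      · apply Dfn.ex
        apply Dfn.and
        · exact dfn_A hK hω (dfn_const hK (nat_Ms hK hω i)) (DfnF.proj 0) (DfnF.proj 1)
        · exact (Dfn.mem (dfn_const hK (nat_Ms hK hω n)) (DfnF.proj 0)).not) (by
      intro s hs
      rw [mem_P₀] at hs
      by_cases h1 : ∃ y, tA (nat i) y ∈ s ∧ nat n ∉ y
      · obtain ⟨y, hy, h1⟩ := h1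
        refine ⟨s, mem_L₀.2 ⟨hs, hs, fun _ h => h⟩, Or.inr ⟨y, ?_, hy, h1⟩⟩
        exact (hc_of_opair (hc_of_opair (hc_trans _ hs.hc _ hy)).2).2
      · refine ⟨insert (tT (nat i) (nat n)) s, mem_L₀.2 ⟨good_T hs (nat_mem_omega i)
          (nat_mem_omega n) fun y hy => ?_, hs, fun x hx => ZFSet.mem_insert_iff.2 (Or.inr hx)⟩,
          Or.inl (ZFSet.mem_insert_iff.2 (Or.inl rfl))⟩
        by_contra h2
        exact h1 ⟨y, hy, h2⟩)
    rcases h1 with h1 | ⟨y', -, h1, h2⟩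
    · exact single_mem_G hK hω hG hq h1
    · obtain ⟨r, hr, h3, h4⟩ := hG.dir p hp q hq
      rw [mem_L₀] at h3 h4
      rw [h3.1.fn _ _ _ (h3.2.2 h) (h4.2.2 h1)] at hz
      exact absurd hz h2

theorem exists_A (i : ℕ) : ∃ p ∈ G, ∃ y ∈ HC, tA (nat i) y ∈ p := by
  refine hG.meet (fun s => ∃ y ∈ HC, tA (nat i) y ∈ s) ?_ ?_
  · apply Dfn.ex
    exact dfn_A hK hω (dfn_const hK (nat_Ms hK hω i)) (DfnF.proj 0) (DfnF.proj 1)
  · intro s hs
    rw [mem_P₀] at hs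
    by_cases h1 : ∃ y, tA (nat i) y ∈ s
    · obtain ⟨y, hy⟩ := h1
      refine ⟨s, mem_L₀.2 ⟨hs, hs, fun _ h => h⟩, y, ?_, hy⟩
      exact (hc_of_opair (hc_of_opair (hc_trans _ hs.hc _ hy)).2).2
    · refine ⟨insert (tA (nat i) ZFSet.omega) s, mem_L₀.2 ⟨good_A hs (nat_mem_omega i)
        (fun _ h => h) (fun y hy => h1 ⟨y, hy⟩) (fun n hn => ?_), hs,
        fun x hx => ZFSet.mem_insert_iff.2 (Or.inr hx)⟩, ZFSet.omega, hc_omega,
        ZFSet.mem_insert_iff.2 (Or.inl rfl)⟩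
      rcases hs.tok _ hn with ⟨j, -, z, -, h2⟩ | ⟨j, -, m, hm, h2⟩
      · exact absurd h2.symm tA_ne
      · rw [(tT_inj h2).2]
        exact hm

theorem exists_index {y : ZFSet.{0}} (hy : y ∈ Ms K) (hyω : y ⊆ ZFSet.omega) :
    ∃ i : ℕ, val G (rn i) = y := by
  obtain ⟨p, hp, i, hi, h⟩ := hG.meet (fun s => ∃ i ∈ ZFSet.omega, tA i y ∈ s) (by
    apply base_hc.bex (dfn_const hK (om_mem hK hω))
    exact dfn_A hK hω (DfnF.proj 0) (dfn_const hK hy) (DfnF.proj 1)) (by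
    intro s hs
    rw [mem_P₀] at hs
    obtain ⟨i, h1, h2⟩ := exists_fresh hs.fin
    exact ⟨insert (tA (nat i) y) s, mem_L₀.2 ⟨good_A hs (nat_mem_omega i) hyω h1
      (fun n hn => absurd hn (h2 n)), hs, fun x hx => ZFSet.mem_insert_iff.2 (Or.inr hx)⟩,
      nat i, nat_mem_omega i, ZFSet.mem_insert_iff.2 (Or.inl rfl)⟩)
  obtain ⟨i, rfl⟩ := mem_omega_iff.1 hi
  exact ⟨i, val_rn hK hω hG hp h⟩

/-- The set of all subsets of `ω` in the model. -/
theorem val_sgn (y : ZFSet.{0}) : y ∈ val G sgn ↔ y ∈ Ms K ∧ y ⊆ ZFSet.omega := by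
  rw [mem_val_sgn (empty_mem_G hK hω hG)]
  constructor
  · rintro ⟨i, rfl⟩
    obtain ⟨p, hp, y, -, h⟩ := exists_A hK hω hG i
    rw [val_rn hK hω hG hp h]
    have h1 := hK.trans _ (hG.sub p hp).2 _ h
    refine ⟨(hK.of_pair (hK.of_pair h1).2).2, ?_⟩
    rcases (mem_P₀.1 (hG.sub p hp).1).tok _ h with ⟨j, -, z, hz, h1⟩ | ⟨j, -, z, -, h1⟩
    · rw [(tA_inj h1).2]
      exact hz
    · exact absurd h1 tA_ne
  · rintro ⟨h1, h2⟩
    obtain ⟨i, hi⟩ := exists_index hK hω hG h1 h2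
    exact ⟨i, hi.symm⟩

end

/-- The power set of `ω` is not countable. -/
theorem uncountable_pow {W : ZFSet.{0}} (hW : ∀ y, y ∈ W ↔ y ⊆ ZFSet.omega) : W ∉ HC := by
  intro h
  have h1 := hc_countable h
  obtain ⟨f, hf⟩ := h1.exists_eq_range ⟨∅, (hW _).2 fun x hx => absurd hx (ZFSet.notMem_empty _)⟩
  let D : ZFSet.{0} := ZFSet.sep (fun z => ∃ n, z = nat n ∧ nat n ∉ f n) ZFSet.omega
  have hD : D ∈ {y | y ∈ W} := (hW D).2 fun z hz => (ZFSet.mem_sep.1 hz).1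
  rw [hf] at hD
  obtain ⟨n, hn⟩ := hD
  have h2 : nat n ∈ D ↔ nat n ∉ f n := by
    rw [ZFSet.mem_sep]
    constructor
    · rintro ⟨-, m, h3, h4⟩
      rw [nat_injective h3]
      exact h4
    · exact fun h3 => ⟨nat_mem_omega n, n, rfl, h3⟩
  rw [hn] at h2
  exact iff_not_self h2

/-- There is a model of `GB⁻` and a class forcing that satisfies the forcing theorem and turns a
proper class into a set. -/
theorem main : ∃ (M C : Set ZFSet.{0}) (P L σ : ZFSet.{0}) (G : Set ZFSet.{0}),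
    IsGBm M C ∧ M.Countable ∧ C.Countable ∧ P ∈ C ∧ L ∈ C ∧ IsPO P L ∧ ForcingTheorem M C P L ∧
      IsGen C P L G ∧ σ ∈ M ∧ IsName {p | p ∈ P} σ ∧ val G σ ∈ C ∧ val G σ ∉ M := by
  obtain ⟨K, hK, hsub⟩ := exists_cl P₀ L₀ (K₀ := {P₀, L₀, ZFSet.omega, Ec L₀, sgn})
    (Set.toFinite _).countable (by
      rintro X (rfl | rfl | rfl | rfl | rfl) x hx
      · exact mem_Hs.1 (ZFSet.mem_sep.1 hx).1
      · exact mem_Hs.1 (ZFSet.mem_sep.1 hx).1
      · exact hc_trans _ hc_omega _ hx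
      · exact mem_Hs.1 (ZFSet.mem_sep.1 hx).1
      · exact hc_trans _ hc_sgn _ hx)
  have hP : P₀ ∈ K := hsub (Or.inl rfl)
  have hL : L₀ ∈ K := hsub (Or.inr (Or.inl rfl))
  have hω : ZFSet.omega ∈ K := hsub (Or.inr (Or.inr (Or.inl rfl)))
  have hE : Ec L₀ ∈ K := hsub (Or.inr (Or.inr (Or.inr (Or.inl rfl))))
  have hs : sgn ∈ K := hsub (Or.inr (Or.inr (Or.inr (Or.inr rfl))))
  have hPO := isPO_cut isPO₀ hK hP hL
  obtain ⟨G, hG, -⟩ := exists_gen (countable_Cs hK) hPO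
    (mem_cut.2 ⟨mem_P₀.2 good_empty, nat_Ms hK hω 0⟩)
  have hGt := gt_of_isGen isPO₀ hK hP hL hG
  have hsM : sgn ∈ Ms K := ⟨hs, hc_sgn⟩
  obtain ⟨W, hW, hW'⟩ := hK.cls (R := fun y => y ⊆ ZFSet.omega)
    (base_hc.subset' (DfnF.proj 0) (dfn_const hK (om_mem hK hω)))
  have hval : val G sgn = cut K W := by
    ext y
    rw [val_sgn hK hω hGt, mem_cut, hW']
    constructor
    · rintro ⟨h1, h2⟩
      exact ⟨⟨h1.2, h2⟩, h1⟩
    · rintro ⟨⟨-, h2⟩, h1⟩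
      exact ⟨h1, h2⟩
  refine ⟨Ms K, Cs K, cut K P₀, cut K L₀, sgn, G, gbm hK hω, countable_Ms hK, countable_Cs hK,
    ⟨_, hP, rfl⟩, ⟨_, hL, rfl⟩, hPO, forcingTheorem isPO₀ hK hP hL hE, hG, hsM,
    isName_cut hK hsM isName_sgn, ⟨W, hW, hval⟩, ?_⟩
  rw [hval]
  intro h
  have h1 := (cut_eq hK h.1 hW).1 (cut_set hK h)
  rw [h1] at h
  refine uncountable_pow (fun y => ?_) h.2
  rw [hW']
  exact ⟨fun h => h.2, fun h => ⟨hc_sub h, h⟩⟩

end Q207.GB
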