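import Pool.Agent.Q207.GB.Defs
import Pool.Agent.Q207.CM.HC

/-!
# The star forcing relation
-/

set_option autoImplicit false

namespace Q207.GB

open ZFSet (pair)
open Pool.Agent.W868 (Fml Sat)
open Q207.CF (IsName val mem_val Ext wf_name)
open Q207.CM (HC)

/-- `p` forces `σ = τ`. -/
def Feq (L : ZFSet.{0}) : ZFSet.{0} → ZFSet.{0} → ZFSet.{0} → Prop :=
  wf_name.fix fun σ ih τ p =>
    (∀ π e, ∀ h : pair π e ∈ σ, ∀ q, pair q p ∈ L → pair q e ∈ L →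
      ∃ r, pair r q ∈ L ∧ ∃ π' e', pair π' e' ∈ τ ∧ pair r e' ∈ L ∧ ih π ⟨e, h⟩ π' r) ∧
    (∀ π' e', pair π' e' ∈ τ → ∀ q, pair q p ∈ L → pair q e' ∈ L →
      ∃ r, pair r q ∈ L ∧ ∃ π e, ∃ h : pair π e ∈ σ, pair r e ∈ L ∧ ih π ⟨e, h⟩ π' r)

theorem feq_iff {L σ τ p : ZFSet.{0}} : Feq L σ τ p ↔
    (∀ π e, pair π e ∈ σ → ∀ q, pair q p ∈ L → pair q e ∈ L →
      ∃ r, pair r q ∈ L ∧ ∃ π' e', pair π' e' ∈ τ ∧ pair r e' ∈ L ∧ Feq L π π' r) ∧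
    (∀ π' e', pair π' e' ∈ τ → ∀ q, pair q p ∈ L → pair q e' ∈ L →
      ∃ r, pair r q ∈ L ∧ ∃ π e, pair π e ∈ σ ∧ pair r e ∈ L ∧ Feq L π π' r) := by
  rw [Feq, WellFounded.fix_eq]
  refine and_congr Iff.rfl ?_
  refine forall_congr' fun π' => forall_congr' fun e' => forall_congr' fun _ =>
    forall_congr' fun q => forall_congr' fun _ => forall_congr' fun _ => exists_congr fun r =>
    and_congr_right fun _ => exists_congr fun π => exists_congr fun e => ?_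
  constructor
  · rintro ⟨h, h1, h2⟩
    exact ⟨h, h1, h2⟩
  · rintro ⟨h, h1, h2⟩
    exact ⟨h, h1, h2⟩

/-- `p` forces `σ ∈ τ`. -/
def Fmem (L σ τ p : ZFSet.{0}) : Prop :=
  ∀ q, pair q p ∈ L → ∃ r, pair r q ∈ L ∧ ∃ π e, pair π e ∈ τ ∧ pair r e ∈ L ∧ Feq L σ π r

/-- `p` forces the formula; the quantifiers range over the names in `HC`. -/
def SF (P L : ZFSet.{0}) {A : Type*} (i : A → ZFSet.{0}) :
    {n : ℕ} → Fml A n → (Fin n → ZFSet.{0}) → ZFSet.{0} → Prop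
  | _, .mem s t, v, p => Fmem L (Sum.elim v i s) (Sum.elim v i t) p
  | _, .eq s t, v, p => Feq L (Sum.elim v i s) (Sum.elim v i t) p
  | _, .neg φ, v, p => ∀ q, pair q p ∈ L → ¬ SF P L i φ v q
  | _, .and φ ψ, v, p => SF P L i φ v p ∧ SF P L i ψ v p
  | _, .ex φ, v, p => ∀ q, pair q p ∈ L → ∃ r, pair r q ∈ L ∧
      ∃ a ∈ HC, IsName {p | p ∈ P} a ∧ SF P L i φ (Fin.cons a v) r

section

variable {P L : ZFSet.{0}} (hL : IsPO P L)

include hL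

theorem IsPO.left {p q : ZFSet.{0}} (h : pair p q ∈ L) : p ∈ P := by
  obtain ⟨a, ha, b, hb, h1⟩ := hL.sub _ h
  rwa [(ZFSet.pair_inj.1 h1).1]

theorem IsPO.right {p q : ZFSet.{0}} (h : pair p q ∈ L) : q ∈ P := by
  obtain ⟨a, ha, b, hb, h1⟩ := hL.sub _ h
  rwa [(ZFSet.pair_inj.1 h1).2]

theorem feq_mono {σ τ p q : ZFSet.{0}} (h : Feq L σ τ p) (hq : pair q p ∈ L) : Feq L σ τ q := by
  rw [feq_iff] at h ⊢
  exact ⟨fun π e h1 r hr hr' => h.1 π e h1 r (hL.trans _ _ _ hr hq) hr',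
    fun π e h1 r hr hr' => h.2 π e h1 r (hL.trans _ _ _ hr hq) hr'⟩

theorem feq_dense {σ τ p : ZFSet.{0}}
    (h : ∀ q, pair q p ∈ L → ∃ r, pair r q ∈ L ∧ Feq L σ τ r) : Feq L σ τ p := by
  rw [feq_iff]
  constructor
  · intro π e h1 q hq hq'
    obtain ⟨r, hr, h2⟩ := h q hq
    obtain ⟨s, hs, h3⟩ := (feq_iff.1 h2).1 π e h1 r (hL.refl _ (hL.left hr))
      (hL.trans _ _ _ hr hq')
    exact ⟨s, hL.trans _ _ _ hs hr, h3⟩
  · intro π e h1 q hq hq'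
    obtain ⟨r, hr, h2⟩ := h q hq
    obtain ⟨s, hs, h3⟩ := (feq_iff.1 h2).2 π e h1 r (hL.refl _ (hL.left hr))
      (hL.trans _ _ _ hr hq')
    exact ⟨s, hL.trans _ _ _ hs hr, h3⟩

theorem fmem_mono {σ τ p q : ZFSet.{0}} (h : Fmem L σ τ p) (hq : pair q p ∈ L) :
    Fmem L σ τ q := fun r hr => h r (hL.trans _ _ _ hr hq)

theorem fmem_dense {σ τ p : ZFSet.{0}}
    (h : ∀ q, pair q p ∈ L → ∃ r, pair r q ∈ L ∧ Fmem L σ τ r) : Fmem L σ τ p := by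
  intro q hq
  obtain ⟨r, hr, h1⟩ := h q hq
  obtain ⟨s, hs, h2⟩ := h1 r (hL.refl _ (hL.left hr))
  exact ⟨s, hL.trans _ _ _ hs hr, h2⟩

theorem sf_mono {A : Type*} {i : A → ZFSet.{0}} : {n : ℕ} → {φ : Fml A n} →
    {v : Fin n → ZFSet.{0}} → {p q : ZFSet.{0}} → SF P L i φ v p → pair q p ∈ L →
      SF P L i φ v q
  | _, .mem _ _, _, _, _, h, hq => fmem_mono hL h hq
  | _, .eq _ _, _, _, _, h, hq => feq_mono hL h hq
  | _, .neg _, _, _, _, h, hq => fun r hr => h r (hL.trans _ _ _ hr hq)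
  | _, .and φ ψ, _, _, _, h, hq => ⟨sf_mono (φ := φ) h.1 hq, sf_mono (φ := ψ) h.2 hq⟩
  | _, .ex _, _, _, _, h, hq => fun r hr => h r (hL.trans _ _ _ hr hq)

theorem sf_dense {A : Type*} {i : A → ZFSet.{0}} : {n : ℕ} → (φ : Fml A n) →
    {v : Fin n → ZFSet.{0}} → {p : ZFSet.{0}} → p ∈ P →
      (∀ q, pair q p ∈ L → ∃ r, pair r q ∈ L ∧ SF P L i φ v r) → SF P L i φ v p
  | _, .mem _ _, _, _, _, h => fmem_dense hL h
  | _, .eq _ _, _, _, _, h => feq_dense hL h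
  | _, .neg φ, v, p, hp, h => by
    intro q hq h1
    obtain ⟨r, hr, h2⟩ := h q hq
    exact h2 r (hL.refl _ (hL.left hr)) (sf_mono hL (φ := φ) h1 hr)
  | _, .and φ ψ, v, p, hp, h =>
    ⟨sf_dense φ hp fun q hq => by
      obtain ⟨r, hr, h1⟩ := h q hq
      exact ⟨r, hr, h1.1⟩, sf_dense ψ hp fun q hq => by
      obtain ⟨r, hr, h1⟩ := h q hq
      exact ⟨r, hr, h1.2⟩⟩
  | _, .ex φ, v, p, hp, h => by
    intro q hq
    obtain ⟨r, hr, h1⟩ := h q hq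
    obtain ⟨s, hs, h2⟩ := h1 r (hL.refl _ (hL.left hr))
    exact ⟨s, hL.trans _ _ _ hs hr, h2⟩

end

/-! ### Substitution -/

theorem sf_subst (P L : ZFSet.{0}) {A : Type*} (i : A → ZFSet.{0}) : {n m : ℕ} → (φ : Fml A n) →
    (σ : Fin n → Fin m ⊕ A) → (v : Fin m → ZFSet.{0}) → (p : ZFSet.{0}) →
    (SF P L i (φ.subst σ) v p ↔ SF P L i φ (fun k => Sum.elim v i (σ k)) p)
  | _, _, .mem s t, σ, v, p => by
    simp only [Pool.Agent.W868.Fml.subst, SF, Pool.Agent.W868.tsubst_elim]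
  | _, _, .eq s t, σ, v, p => by
    simp only [Pool.Agent.W868.Fml.subst, SF, Pool.Agent.W868.tsubst_elim]
  | _, _, .neg φ, σ, v, p => by
    simp only [Pool.Agent.W868.Fml.subst, SF, sf_subst P L i φ]
  | _, _, .and φ ψ, σ, v, p => by
    simp only [Pool.Agent.W868.Fml.subst, SF, sf_subst P L i φ, sf_subst P L i ψ]
  | _, _, .ex φ, σ, v, p => by
    simp only [Pool.Agent.W868.Fml.subst, SF, sf_subst P L i φ, Pool.Agent.W868.lift_elim]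

theorem sf_map (P L : ZFSet.{0}) {A B : Type*} (f : A → B) (i : B → ZFSet.{0}) : {n : ℕ} →
    (φ : Fml A n) → (v : Fin n → ZFSet.{0}) → (p : ZFSet.{0}) →
    (SF P L i (φ.map f) v p ↔ SF P L (i ∘ f) φ v p)
  | _, .mem s t, v, p => by
    simp only [Pool.Agent.W868.Fml.map, SF, Pool.Agent.W868.elim_map]
  | _, .eq s t, v, p => by
    simp only [Pool.Agent.W868.Fml.map, SF, Pool.Agent.W868.elim_map]
  | _, .neg φ, v, p => by
    simp only [Pool.Agent.W868.Fml.map, SF, sf_map P L f i φ]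
  | _, .and φ ψ, v, p => by
    simp only [Pool.Agent.W868.Fml.map, SF, sf_map P L f i φ, sf_map P L f i ψ]
  | _, .ex φ, v, p => by
    simp only [Pool.Agent.W868.Fml.map, SF, sf_map P L f i φ]

end Q207.GB
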