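import Pool.Agent.Q207.GB.Clo
import Pool.Agent.Q207.CF.Names

/-!
# The truth lemma and the forcing theorem
-/

set_option autoImplicit false

namespace Q207.GB

open ZFSet (pair)
open Pool.Agent.W868 (Fml Sat Dfn DfnF IsBase TOver tOver_inr nat)
open Q207.CF (IsName val mem_val Ext IsFilter IsDense wf_name isName_iff)
open Q207.CM (HC hc_trans hc_of hc_countable hc_pair hc_sUnion hc_omega base_hc)

/-! ### Generic filters exist -/

theorem exists_gen {C : Set ZFSet.{0}} (hC : C.Countable) {P L : ZFSet.{0}} (hL : IsPO P L)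
    {p : ZFSet.{0}} (hp : p ∈ P) : ∃ G, IsGen C P L G ∧ p ∈ G := by
  classical
  let 𝒟 : Set ZFSet.{0} := insert P {D | D ∈ C ∧
    IsDense {p | p ∈ P} (fun p q => pair p q ∈ L) {p | p ∈ D}}
  have h1 : 𝒟.Countable := (hC.mono fun D hD => hD.1).insert P
  obtain ⟨f, hf⟩ := h1.exists_eq_range ⟨P, Or.inl rfl⟩
  have h2 : ∀ n, ∀ q ∈ P, ∃ r, r ∈ P ∧ r ∈ f n ∧ pair r q ∈ L := by
    intro n q hq
    have h3 : f n ∈ 𝒟 := by
      rw [hf]
      exact ⟨n, rfl⟩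
    rcases h3 with h3 | ⟨-, h3, h4⟩
    · exact ⟨q, hq, by rwa [h3], hL.refl q hq⟩
    · obtain ⟨r, hr, h5⟩ := h4 q hq
      exact ⟨r, h3 hr, hr, h5⟩
  choose! g hg1 hg2 hg3 using h2
  let q : ℕ → ZFSet.{0} := fun n => Nat.rec p (fun n x => g n x) n
  have hq0 : q 0 = p := rfl
  have hqs : ∀ n, q (n + 1) = g n (q n) := fun n => rfl
  have hqP : ∀ n, q n ∈ P := by
    intro n
    induction n with
    | zero => exact hp
    | succ n ih => exact hg1 n _ ih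
  have hmono : ∀ n m, pair (q (n + m)) (q n) ∈ L := by
    intro n m
    induction m with
    | zero => exact hL.refl _ (hqP n)
    | succ m ih => exact hL.trans _ _ _ (hg3 _ _ (hqP _)) ih
  refine ⟨{x | x ∈ P ∧ ∃ n, pair (q n) x ∈ L}, ⟨⟨fun x hx => hx.1, ⟨p, hp, 0, hL.refl p hp⟩, ?_, ?_⟩,
    ?_⟩, hp, 0, hL.refl p hp⟩
  · rintro x ⟨-, n, hn⟩ y hy hxy
    exact ⟨hy, n, hL.trans _ _ _ hn hxy⟩
  · rintro x ⟨-, n, hn⟩ y ⟨-, m, hm⟩
    refine ⟨q (n + m), ⟨hqP _, n + m, hL.refl _ (hqP _)⟩, hL.trans _ _ _ (hmono n m) hn, ?_⟩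
    have h3 := hmono m n
    rw [Nat.add_comm] at h3
    exact hL.trans _ _ _ h3 hm
  · intro D hD hd
    have h3 : D ∈ 𝒟 := Or.inr ⟨hD, hd⟩
    rw [hf] at h3
    obtain ⟨n, rfl⟩ := h3
    exact ⟨q (n + 1), hg2 n _ (hqP n), hqP (n + 1), n + 1, hL.refl _ (hqP (n + 1))⟩

theorem hc_opair {x y : ZFSet.{0}} (hx : x ∈ HC) (hy : y ∈ HC) : pair x y ∈ HC :=
  hc_pair (by simpa using hc_pair hx hx) (hc_pair hx hy)

theorem hc_of_opair {x y : ZFSet.{0}} (h : pair x y ∈ HC) : x ∈ HC ∧ y ∈ HC := by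
  have h1 : ({x, y} : ZFSet.{0}) ∈ HC := hc_trans _ h _ (by simp [pair])
  exact ⟨hc_trans _ h1 _ (by simp), hc_trans _ h1 _ (by simp)⟩

/-- The class of the triples `(p, (σ, τ))` such that `p` forces `σ = τ`. -/
noncomputable def Ec (L : ZFSet.{0}) : ZFSet.{0} :=
  ZFSet.sep (fun x => ∃ p σ τ, x = pair p (pair σ τ) ∧ Feq L σ τ p) Hs

theorem mem_Ec {L p σ τ : ZFSet.{0}} (hp : p ∈ HC) (hσ : σ ∈ HC) (hτ : τ ∈ HC) :
    pair p (pair σ τ) ∈ Ec L ↔ Feq L σ τ p := by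
  rw [Ec, ZFSet.mem_sep, mem_Hs]
  constructor
  · rintro ⟨-, p', σ', τ', h, h'⟩
    obtain ⟨rfl, h1⟩ := ZFSet.pair_inj.1 h
    obtain ⟨rfl, rfl⟩ := ZFSet.pair_inj.1 h1
    exact h'
  · exact fun h => ⟨hc_opair hp (hc_opair hσ hτ), _, _, _, rfl, h⟩

/-- The facts about generic filters that are used. -/
structure Gt (P L : ZFSet.{0}) (K G : Set ZFSet.{0}) : Prop where
  sub : ∀ p ∈ G, p ∈ P ∧ p ∈ Ms K
  nonempty : G.Nonempty
  up : ∀ p ∈ G, ∀ q ∈ Ms K, pair p q ∈ L → q ∈ G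
  dir : ∀ p ∈ G, ∀ q ∈ G, ∃ r ∈ G, pair r p ∈ L ∧ pair r q ∈ L
  meet : ∀ R : ZFSet.{0} → Prop, (Dfn K HC fun w : Fin 1 → ZFSet.{0} => R (w 0)) →
    (∀ p ∈ P, ∃ q, pair q p ∈ L ∧ R q) → ∃ p ∈ G, R p

section

variable {P L : ZFSet.{0}} {K : Set ZFSet.{0}} (hL : IsPO P L) (hK : Cl P L K) (hP : P ∈ K)
  (hLK : L ∈ K) (hE : Ec L ∈ K)

include hL hK hP hLK

omit hL hP hLK in
theorem mem_cut_pair {X p q : ZFSet.{0}} :
    pair p q ∈ cut K X ↔ pair p q ∈ X ∧ p ∈ Ms K ∧ q ∈ Ms K := by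
  rw [mem_cut]
  exact and_congr_right fun _ => ⟨fun h => hK.of_pair h, fun h => hK.pair_mem h.1 h.2⟩

theorem isPO_cut : IsPO (cut K P) (cut K L) := by
  refine ⟨fun x hx => ?_, fun p hp => ?_, fun p q r h1 h2 => ?_, fun p q h1 h2 => ?_, ?_⟩
  · obtain ⟨h1, h2⟩ := mem_cut.1 hx
    obtain ⟨p, hp, q, hq, rfl⟩ := hL.sub x h1
    have h3 := hK.of_pair h2
    exact ⟨p, mem_cut.2 ⟨hp, h3.1⟩, q, mem_cut.2 ⟨hq, h3.2⟩, rfl⟩
  · rw [mem_cut] at hp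
    exact (mem_cut_pair hK).2 ⟨hL.refl p hp.1, hp.2, hp.2⟩
  · rw [mem_cut_pair hK] at h1 h2 ⊢
    exact ⟨hL.trans _ _ _ h1.1 h2.1, h1.2.1, h2.2.2⟩
  · rw [mem_cut_pair hK] at h1 h2
    exact hL.antisymm _ _ h1.1 h2.1
  · obtain ⟨t, ht, h1⟩ := hL.top
    obtain ⟨t, ht, h1, h2⟩ := hK.wit (R := fun t => t ∈ P ∧ ∀ p ∈ HC, p ∈ P → pair p t ∈ L) (by
      apply Dfn.and
      · exact dfn_cls hK hP (DfnF.proj 0)
      · apply Dfn.all
        apply Dfn.imp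
        · exact dfn_cls hK hP (DfnF.proj 0)
        · exact dfn_cls hK hLK (base_hc.pair' (DfnF.proj 0) (DfnF.proj 1)))
      ⟨t, hK.sub P hP t ht, ht, fun p _ hp => h1 p hp⟩
    refine ⟨t, mem_cut.2 ⟨h1, ht⟩, fun p hp => ?_⟩
    rw [mem_cut] at hp
    exact (mem_cut_pair hK).2 ⟨h2 p hp.2.2 hp.1, hp.2, ht⟩

theorem gt_of_isGen {G : Set ZFSet.{0}} (hG : IsGen (Cs K) (cut K P) (cut K L) G) :
    Gt P L K G := by
  obtain ⟨⟨h1, h2, h3, h4⟩, h5⟩ := hG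
  have h1' : ∀ p ∈ G, p ∈ P ∧ p ∈ Ms K := fun p hp => mem_cut.1 (h1 hp)
  refine ⟨h1', h2, fun p hp q hq hpq => ?_, fun p hp q hq => ?_, fun R hR hd => ?_⟩
  · have h6 := h1' p hp
    refine h3 p hp q (mem_cut.2 ⟨hL.right hpq, hq⟩) ?_
    exact (mem_cut_pair hK).2 ⟨hpq, h6.2, hq⟩
  · obtain ⟨r, hr, h6, h7⟩ := h4 p hp q hq
    exact ⟨r, hr, ((mem_cut_pair hK).1 h6).1, ((mem_cut_pair hK).1 h7).1⟩
  · obtain ⟨D, hD, h6⟩ := hK.cls (R := fun z => z ∈ P ∧ R z) ((dfn_cls hK hP (DfnF.proj 0)).and hR)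
    obtain ⟨p, hp, hpG⟩ := h5 (cut K D) ⟨D, hD, rfl⟩ (by
      refine ⟨fun p hp => ?_, fun p hp => ?_⟩
      · have hp' : p ∈ cut K D := hp
        rw [mem_cut, h6] at hp'
        exact mem_cut.2 ⟨hp'.1.2.1, hp'.2⟩
      · have hp' : p ∈ cut K P := hp
        rw [mem_cut] at hp'
        obtain ⟨q, hq, h7⟩ := hd p hp'.1
        obtain ⟨q, hq, h7, h8⟩ := hK.wit (R := fun q => q ∈ D ∧ pair q p ∈ L) (by
          apply Dfn.and
          · exact dfn_cls hK hD (DfnF.proj 0)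
          · exact dfn_cls hK hLK (base_hc.pair' (DfnF.proj 0) (dfn_const hK hp'.2)))
          ⟨q, hK.sub P hP q (hL.left hq), (h6 q).2 ⟨hK.sub P hP q (hL.left hq), hL.left hq, h7⟩, hq⟩
        exact ⟨q, mem_cut.2 ⟨h7, hq⟩, (mem_cut_pair hK).2 ⟨h8, hq, hp'.2⟩⟩)
    rw [mem_cut, h6] at hp
    exact ⟨p, hpG, hp.1.2.2⟩

theorem Gt.below {G : Set ZFSet.{0}} (hG : Gt P L K G) {q : ZFSet.{0}} (hq : q ∈ G)
    (R : ZFSet.{0} → Prop) (hR : Dfn K HC fun w : Fin 1 → ZFSet.{0} => R (w 0))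
    (h : ∀ r, pair r q ∈ L → ∃ s, pair s r ∈ L ∧ R s) : ∃ s ∈ G, pair s q ∈ L ∧ R s := by
  have hqM := (hG.sub q hq).2
  obtain ⟨s, hs, h1⟩ := hG.meet (fun r => (R r ∧ pair r q ∈ L) ∨
      ¬ ∃ s ∈ HC, pair s r ∈ L ∧ pair s q ∈ L) (by
    apply Dfn.or
    · exact hR.and (dfn_cls hK hLK (base_hc.pair' (DfnF.proj 0) (dfn_const hK hqM)))
    · apply Dfn.not
      apply Dfn.ex
      apply Dfn.and
      · exact dfn_cls hK hLK (base_hc.pair' (DfnF.proj 0) (DfnF.proj 1))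
      · exact dfn_cls hK hLK (base_hc.pair' (DfnF.proj 0) (dfn_const hK hqM))) (by
    intro p hp
    by_cases h2 : ∃ s ∈ HC, pair s p ∈ L ∧ pair s q ∈ L
    · obtain ⟨s, -, h3, h4⟩ := h2
      obtain ⟨t, ht, h5⟩ := h s h4
      exact ⟨t, hL.trans _ _ _ ht h3, Or.inl ⟨h5, hL.trans _ _ _ ht h4⟩⟩
    · exact ⟨p, hL.refl p hp, Or.inr h2⟩)
  rcases h1 with ⟨h1, h2⟩ | h1
  · exact ⟨s, hs, h2, h1⟩
  · obtain ⟨r, hr, h2, h3⟩ := hG.dir s hs q hq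
    exact absurd ⟨r, (hG.sub r hr).2.2, h2, h3⟩ h1

include hE

omit hL hP hLK in
theorem dfn_feq {n : ℕ} {F F' F'' : (Fin n → ZFSet.{0}) → ZFSet.{0}} (h : DfnF K HC F)
    (h' : DfnF K HC F') (h'' : DfnF K HC F'') :
    Dfn K HC fun v => Feq L (F v) (F' v) (F'' v) := by
  refine (dfn_cls hK hE (base_hc.pair' h'' (base_hc.pair' h h'))).congr fun v hv => ?_
  exact mem_Ec (h''.1 v hv) (h.1 v hv) (h'.1 v hv)

/-- The condition `p` does not extend to a condition that puts the element `π` in `Y`. -/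
theorem dfn_bad {X Y : ZFSet.{0}} (hX : X ∈ K) (hY : Y ∈ K) :
    Dfn K HC fun w : Fin 1 → ZFSet.{0} => ∃ π ∈ HC, ∃ e ∈ HC, pair π e ∈ X ∧ pair (w 0) e ∈ L ∧
      ∀ π' ∈ HC, ∀ e' ∈ HC, ∀ r ∈ HC, pair π' e' ∈ Y → pair r (w 0) ∈ L →
        ¬ (pair r e' ∈ L ∧ Feq L π π' r) := by
  have hB := base_hc
  apply Dfn.ex
  apply Dfn.ex
  apply Dfn.and
  · exact dfn_cls hK hX (hB.pair' (DfnF.proj 1) (DfnF.proj 0))
  apply Dfn.and
  · exact dfn_cls hK hLK (hB.pair' (DfnF.proj 2) (DfnF.proj 0))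
  apply Dfn.all
  apply Dfn.all
  apply Dfn.all
  apply Dfn.imp
  · exact dfn_cls hK hY (hB.pair' (DfnF.proj 2) (DfnF.proj 1))
  apply Dfn.imp
  · exact dfn_cls hK hLK (hB.pair' (DfnF.proj 0) (DfnF.proj 5))
  apply Dfn.not
  apply Dfn.and
  · exact dfn_cls hK hLK (hB.pair' (DfnF.proj 0) (DfnF.proj 1))
  · exact dfn_feq hK hE (DfnF.proj 4) (DfnF.proj 2) (DfnF.proj 0)

theorem dfn_bad' {X Y : ZFSet.{0}} (hX : X ∈ K) (hY : Y ∈ K) :
    Dfn K HC fun w : Fin 1 → ZFSet.{0} => ∃ π' ∈ HC, ∃ e' ∈ HC, pair π' e' ∈ Y ∧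
      pair (w 0) e' ∈ L ∧ ∀ π ∈ HC, ∀ e ∈ HC, ∀ r ∈ HC, pair π e ∈ X → pair r (w 0) ∈ L →
        ¬ (pair r e ∈ L ∧ Feq L π π' r) := by
  have hB := base_hc
  apply Dfn.ex
  apply Dfn.ex
  apply Dfn.and
  · exact dfn_cls hK hY (hB.pair' (DfnF.proj 1) (DfnF.proj 0))
  apply Dfn.and
  · exact dfn_cls hK hLK (hB.pair' (DfnF.proj 2) (DfnF.proj 0))
  apply Dfn.all
  apply Dfn.all
  apply Dfn.all
  apply Dfn.imp
  · exact dfn_cls hK hX (hB.pair' (DfnF.proj 2) (DfnF.proj 1))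
  apply Dfn.imp
  · exact dfn_cls hK hLK (hB.pair' (DfnF.proj 0) (DfnF.proj 5))
  apply Dfn.not
  apply Dfn.and
  · exact dfn_cls hK hLK (hB.pair' (DfnF.proj 0) (DfnF.proj 1))
  · exact dfn_feq hK hE (DfnF.proj 2) (DfnF.proj 4) (DfnF.proj 0)

theorem truth_eq {G : Set ZFSet.{0}} (hG : Gt P L K G) : ∀ X ∈ K, ∀ Y ∈ K,
    (val G (cut K X) = val G (cut K Y) ↔ ∃ p ∈ G, Feq L X Y p) := by
  have hB := base_hc
  have hPH := hK.sub P hP
  intro X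
  induction X using wf_name.induction with
  | _ X ih =>
  intro hX Y hY
  have hXH : ∀ {π e}, pair π e ∈ X → π ∈ HC ∧ e ∈ HC := fun h => hc_of_opair (hK.sub X hX _ h)
  have hYH : ∀ {π e}, pair π e ∈ Y → π ∈ HC ∧ e ∈ HC := fun h => hc_of_opair (hK.sub Y hY _ h)
  constructor
  · intro h
    let B : ZFSet.{0} → Prop := fun p =>
      (∃ π ∈ HC, ∃ e ∈ HC, pair π e ∈ X ∧ pair p e ∈ L ∧
        ∀ π' ∈ HC, ∀ e' ∈ HC, ∀ r ∈ HC, pair π' e' ∈ Y → pair r p ∈ L →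
          ¬ (pair r e' ∈ L ∧ Feq L π π' r)) ∨
      (∃ π' ∈ HC, ∃ e' ∈ HC, pair π' e' ∈ Y ∧ pair p e' ∈ L ∧
        ∀ π ∈ HC, ∀ e ∈ HC, ∀ r ∈ HC, pair π e ∈ X → pair r p ∈ L →
          ¬ (pair r e ∈ L ∧ Feq L π π' r))
    have hBd : Dfn K HC fun w : Fin 1 → ZFSet.{0} => B (w 0) :=
      (dfn_bad hL hK hP hLK hE hX hY).or (dfn_bad' hL hK hP hLK hE hX hY)
    obtain ⟨p, hp, h1⟩ := hG.meet (fun p => B p ∨ ∀ r ∈ HC, pair r p ∈ L → ¬ B r) (by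
      apply Dfn.or
      · exact hBd
      · apply Dfn.all
        apply Dfn.imp
        · exact dfn_cls hK hLK (hB.pair' (DfnF.proj 0) (DfnF.proj 1))
        · exact (Dfn.comp1 (Q := B) hBd (DfnF.proj 0)).not) (by
      intro p hp
      by_cases h2 : ∃ r, pair r p ∈ L ∧ B r
      · obtain ⟨r, hr, h2⟩ := h2
        exact ⟨r, hr, Or.inl h2⟩
      · exact ⟨p, hL.refl p hp, Or.inr fun r _ hr hb => h2 ⟨r, hr, hb⟩⟩)
    have hpM := (hG.sub p hp).2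
    rcases h1 with (h1 | h1) | h1
    · exfalso
      obtain ⟨π, hπ, e, he, h2, h3, h4⟩ : ∃ π ∈ Ms K, ∃ e ∈ Ms K, pair π e ∈ X ∧ pair p e ∈ L ∧
          ∀ π' ∈ HC, ∀ e' ∈ HC, ∀ r ∈ HC, pair π' e' ∈ Y → pair r p ∈ L →
            ¬ (pair r e' ∈ L ∧ Feq L π π' r) := by
        obtain ⟨x, hx, π, hπ, e, he, h2⟩ := hK.wit (R := fun x => ∃ π ∈ HC, ∃ e ∈ HC,
            x = pair π e ∧ pair π e ∈ X ∧ pair p e ∈ L ∧
            ∀ π' ∈ HC, ∀ e' ∈ HC, ∀ r ∈ HC, pair π' e' ∈ Y → pair r p ∈ L →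
              ¬ (pair r e' ∈ L ∧ Feq L π π' r)) (by
          apply Dfn.ex
          apply Dfn.ex
          apply Dfn.and
          · exact Dfn.eq (DfnF.proj 2) (hB.pair' (DfnF.proj 1) (DfnF.proj 0))
          apply Dfn.and
          · exact dfn_cls hK hX (hB.pair' (DfnF.proj 1) (DfnF.proj 0))
          apply Dfn.and
          · exact dfn_cls hK hLK (hB.pair' (dfn_const hK hpM) (DfnF.proj 0))
          apply Dfn.all
          apply Dfn.all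
          apply Dfn.all
          apply Dfn.imp
          · exact dfn_cls hK hY (hB.pair' (DfnF.proj 2) (DfnF.proj 1))
          apply Dfn.imp
          · exact dfn_cls hK hLK (hB.pair' (DfnF.proj 0) (dfn_const hK hpM))
          apply Dfn.not
          apply Dfn.and
          · exact dfn_cls hK hLK (hB.pair' (DfnF.proj 0) (DfnF.proj 1))
          · exact dfn_feq hK hE (DfnF.proj 4) (DfnF.proj 2) (DfnF.proj 0)) (by
          obtain ⟨π, hπ, e, he, h2⟩ := h1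
          exact ⟨pair π e, hc_opair hπ he, π, hπ, e, he, rfl, h2⟩)
        obtain ⟨rfl, h2⟩ := h2
        exact ⟨π, (hK.of_pair hx).1, e, (hK.of_pair hx).2, h2⟩
      have h5 : val G π ∈ val G (cut K X) :=
        mem_val.2 ⟨π, e, hG.up p hp e he h3, (mem_cut_pair hK).2 ⟨h2, hπ, he⟩, rfl⟩
      rw [h] at h5
      obtain ⟨π', e', he', h6, h7⟩ := mem_val.1 h5
      rw [mem_cut_pair hK] at h6
      obtain ⟨q, hq, h8⟩ := (ih π ⟨e, h2⟩ hπ.1 π' h6.2.1.1).1 (by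
        rw [cut_set hK hπ, cut_set hK h6.2.1]
        exact h7)
      obtain ⟨r, hr, h9, h10⟩ := hG.dir p hp q hq
      obtain ⟨s, hs, h11, h12⟩ := hG.dir r hr e' he'
      have hsH := (hG.sub s hs).2.2
      exact h4 π' h6.2.1.2 e' h6.2.2.2 s hsH h6.1 (hL.trans _ _ _ h11 h9)
        ⟨h12, feq_mono hL h8 (hL.trans _ _ _ h11 h10)⟩
    · exfalso
      obtain ⟨π', hπ, e', he, h2, h3, h4⟩ : ∃ π' ∈ Ms K, ∃ e' ∈ Ms K, pair π' e' ∈ Y ∧
          pair p e' ∈ L ∧ ∀ π ∈ HC, ∀ e ∈ HC, ∀ r ∈ HC, pair π e ∈ X → pair r p ∈ L →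
            ¬ (pair r e ∈ L ∧ Feq L π π' r) := by
        obtain ⟨x, hx, π', hπ, e', he, h2⟩ := hK.wit (R := fun x => ∃ π' ∈ HC, ∃ e' ∈ HC,
            x = pair π' e' ∧ pair π' e' ∈ Y ∧ pair p e' ∈ L ∧
            ∀ π ∈ HC, ∀ e ∈ HC, ∀ r ∈ HC, pair π e ∈ X → pair r p ∈ L →
              ¬ (pair r e ∈ L ∧ Feq L π π' r)) (by
          apply Dfn.ex
          apply Dfn.ex
          apply Dfn.and
          · exact Dfn.eq (DfnF.proj 2) (hB.pair' (DfnF.proj 1) (DfnF.proj 0))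
          apply Dfn.and
          · exact dfn_cls hK hY (hB.pair' (DfnF.proj 1) (DfnF.proj 0))
          apply Dfn.and
          · exact dfn_cls hK hLK (hB.pair' (dfn_const hK hpM) (DfnF.proj 0))
          apply Dfn.all
          apply Dfn.all
          apply Dfn.all
          apply Dfn.imp
          · exact dfn_cls hK hX (hB.pair' (DfnF.proj 2) (DfnF.proj 1))
          apply Dfn.imp
          · exact dfn_cls hK hLK (hB.pair' (DfnF.proj 0) (dfn_const hK hpM))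
          apply Dfn.not
          apply Dfn.and
          · exact dfn_cls hK hLK (hB.pair' (DfnF.proj 0) (DfnF.proj 1))
          · exact dfn_feq hK hE (DfnF.proj 2) (DfnF.proj 4) (DfnF.proj 0)) (by
          obtain ⟨π', hπ, e', he, h2⟩ := h1
          exact ⟨pair π' e', hc_opair hπ he, π', hπ, e', he, rfl, h2⟩)
        obtain ⟨rfl, h2⟩ := h2
        exact ⟨π', (hK.of_pair hx).1, e', (hK.of_pair hx).2, h2⟩
      have h5 : val G π' ∈ val G (cut K Y) :=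
        mem_val.2 ⟨π', e', hG.up p hp e' he h3, (mem_cut_pair hK).2 ⟨h2, hπ, he⟩, rfl⟩
      rw [← h] at h5
      obtain ⟨π, e, he', h6, h7⟩ := mem_val.1 h5
      rw [mem_cut_pair hK] at h6
      obtain ⟨q, hq, h8⟩ := (ih π ⟨e, h6.1⟩ h6.2.1.1 π' hπ.1).1 (by
        rw [cut_set hK hπ, cut_set hK h6.2.1]
        exact h7.symm)
      obtain ⟨r, hr, h9, h10⟩ := hG.dir p hp q hq
      obtain ⟨s, hs, h11, h12⟩ := hG.dir r hr e he'
      have hsH := (hG.sub s hs).2.2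
      exact h4 π h6.2.1.2 e h6.2.2.2 s hsH h6.1 (hL.trans _ _ _ h11 h9)
        ⟨h12, feq_mono hL h8 (hL.trans _ _ _ h11 h10)⟩
    · refine ⟨p, hp, ?_⟩
      rw [feq_iff]
      constructor
      · intro π e h2 q hq hq'
        by_contra h3
        refine h1 q (hPH _ (hL.left hq)) hq (Or.inl ⟨π, (hXH h2).1, e, (hXH h2).2, h2, hq', ?_⟩)
        intro π' _ e' _ r _ h4 hr h5
        exact h3 ⟨r, hr, π', e', h4, h5⟩
      · intro π' e' h2 q hq hq'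
        by_contra h3
        refine h1 q (hPH _ (hL.left hq)) hq (Or.inr ⟨π', (hYH h2).1, e', (hYH h2).2, h2, hq', ?_⟩)
        intro π _ e _ r _ h4 hr h5
        exact h3 ⟨r, hr, π, e, h4, h5⟩
  · rintro ⟨p, hp, h⟩
    rw [feq_iff] at h
    ext z
    constructor
    · intro hz
      obtain ⟨π, e, he, h1, rfl⟩ := mem_val.1 hz
      rw [mem_cut_pair hK] at h1
      obtain ⟨h1, hπ, heM⟩ := h1
      obtain ⟨q, hq, h2, h3⟩ := hG.dir p hp e he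
      obtain ⟨s, hs, -, h4⟩ := Gt.below hL hK hP hLK hG hq
        (fun r => ∃ π' ∈ HC, ∃ e' ∈ HC, pair π' e' ∈ Y ∧ pair r e' ∈ L ∧ Feq L π π' r) (by
        apply Dfn.ex
        apply Dfn.ex
        apply Dfn.and
        · exact dfn_cls hK hY (hB.pair' (DfnF.proj 1) (DfnF.proj 0))
        apply Dfn.and
        · exact dfn_cls hK hLK (hB.pair' (DfnF.proj 2) (DfnF.proj 0))
        · exact dfn_feq hK hE (dfn_const hK hπ) (DfnF.proj 1) (DfnF.proj 2)) (by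
        intro r hr
        obtain ⟨s, hs, π', e', h4, h5⟩ := h.1 π e h1 r (hL.trans _ _ _ hr h2)
          (hL.trans _ _ _ hr h3)
        exact ⟨s, hs, π', (hYH h4).1, e', (hYH h4).2, h4, h5⟩)
      have hsM := (hG.sub s hs).2
      obtain ⟨x, hx, π', hπ', e', he', h5, h6, h7, h8⟩ := hK.wit (R := fun x => ∃ π' ∈ HC,
          ∃ e' ∈ HC, x = pair π' e' ∧ pair π' e' ∈ Y ∧ pair s e' ∈ L ∧ Feq L π π' s) (by
        apply Dfn.ex
        apply Dfn.ex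
        apply Dfn.and
        · exact Dfn.eq (DfnF.proj 2) (hB.pair' (DfnF.proj 1) (DfnF.proj 0))
        apply Dfn.and
        · exact dfn_cls hK hY (hB.pair' (DfnF.proj 1) (DfnF.proj 0))
        apply Dfn.and
        · exact dfn_cls hK hLK (hB.pair' (dfn_const hK hsM) (DfnF.proj 0))
        · exact dfn_feq hK hE (dfn_const hK hπ) (DfnF.proj 1) (dfn_const hK hsM)) (by
        obtain ⟨π', hπ', e', he', h5⟩ := h4
        exact ⟨pair π' e', hc_opair hπ' he', π', hπ', e', he', rfl, h5⟩)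
      subst h5
      obtain ⟨hπM', heM'⟩ := hK.of_pair hx
      have h9 := (ih π ⟨e, h1⟩ hπ.1 π' hπM'.1).2 ⟨s, hs, h8⟩
      rw [cut_set hK hπ, cut_set hK hπM'] at h9
      exact mem_val.2 ⟨π', e', hG.up s hs e' heM' h7, (mem_cut_pair hK).2 ⟨h6, hπM', heM'⟩, h9⟩
    · intro hz
      obtain ⟨π', e', he, h1, rfl⟩ := mem_val.1 hz
      rw [mem_cut_pair hK] at h1
      obtain ⟨h1, hπ, heM⟩ := h1
      obtain ⟨q, hq, h2, h3⟩ := hG.dir p hp e' he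
      obtain ⟨s, hs, -, h4⟩ := Gt.below hL hK hP hLK hG hq
        (fun r => ∃ π ∈ HC, ∃ e ∈ HC, pair π e ∈ X ∧ pair r e ∈ L ∧ Feq L π π' r) (by
        apply Dfn.ex
        apply Dfn.ex
        apply Dfn.and
        · exact dfn_cls hK hX (hB.pair' (DfnF.proj 1) (DfnF.proj 0))
        apply Dfn.and
        · exact dfn_cls hK hLK (hB.pair' (DfnF.proj 2) (DfnF.proj 0))
        · exact dfn_feq hK hE (DfnF.proj 1) (dfn_const hK hπ) (DfnF.proj 2)) (by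
        intro r hr
        obtain ⟨s, hs, π, e, h4, h5⟩ := h.2 π' e' h1 r (hL.trans _ _ _ hr h2)
          (hL.trans _ _ _ hr h3)
        exact ⟨s, hs, π, (hXH h4).1, e, (hXH h4).2, h4, h5⟩)
      have hsM := (hG.sub s hs).2
      obtain ⟨x, hx, π, hπ', e, he', h5, h6, h7, h8⟩ := hK.wit (R := fun x => ∃ π ∈ HC,
          ∃ e ∈ HC, x = pair π e ∧ pair π e ∈ X ∧ pair s e ∈ L ∧ Feq L π π' s) (by
        apply Dfn.ex
        apply Dfn.ex
        apply Dfn.and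
        · exact Dfn.eq (DfnF.proj 2) (hB.pair' (DfnF.proj 1) (DfnF.proj 0))
        apply Dfn.and
        · exact dfn_cls hK hX (hB.pair' (DfnF.proj 1) (DfnF.proj 0))
        apply Dfn.and
        · exact dfn_cls hK hLK (hB.pair' (dfn_const hK hsM) (DfnF.proj 0))
        · exact dfn_feq hK hE (DfnF.proj 1) (dfn_const hK hπ) (dfn_const hK hsM)) (by
        obtain ⟨π, hπ', e, he', h5⟩ := h4
        exact ⟨pair π e, hc_opair hπ' he', π, hπ', e, he', rfl, h5⟩)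
      subst h5
      obtain ⟨hπM', heM'⟩ := hK.of_pair hx
      have h9 := (ih π ⟨e, h6⟩ hπM'.1 π' hπ.1).2 ⟨s, hs, h8⟩
      rw [cut_set hK hπ, cut_set hK hπM'] at h9
      exact mem_val.2 ⟨π, e, hG.up s hs e heM' h7, (mem_cut_pair hK).2 ⟨h6, hπM', heM'⟩, h9.symm⟩

end

end Q207.GB
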